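import Pool.Agent.Q67.AXI.Defs2

/-!
# Project AXW (helper67): powers of the distance to the axis are locally integrable
-/

set_option autoImplicit false

open MeasureTheory Set Metric Filter Topology
open scoped ContDiff

namespace Pool.Agent.Q177.AXI

open H459R3.NS Pool.Agent.W268.NS Pool.Agent.Q67.VD
open Pool.Agent.Q85.CC Pool.Agent.Q85.CL Pool.Agent.TH305.AX Pool.Agent.Q67.AXI

lemma ae_crd (i : Fin 3) : ∀ᵐ x : V, x i ≠ 0 := by
  have h1 : volume ((LinearMap.ker (LinearMap.proj i : V →ₗ[ℝ] ℝ) : Submodule ℝ V) : Set V) = 0 := by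
    apply Measure.addHaar_submodule
    intro h
    rw [LinearMap.ker_eq_top] at h
    have := congrArg (fun f : V →ₗ[ℝ] ℝ => f (fun _ => 1)) h
    simp at this
  have h2 : ∀ᵐ x : V, x ∉ ((LinearMap.ker (LinearMap.proj i : V →ₗ[ℝ] ℝ) : Submodule ℝ V) : Set V) :=
    measure_eq_zero_iff_ae_notMem.1 h1
  filter_upwards [h2] with x hx hsg
  apply hx
  simpa using hsg

lemma sg_cont : Continuous fun x : V => sg x := by unfold sg; fun_prop

lemma rp_abs_int {a : ℝ} (ha : -1 < a) (R : ℝ) :
    Integrable ((Icc (-R) R).indicator fun s : ℝ => |s| ^ a) := by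
  rw [integrable_indicator_iff measurableSet_Icc]
  rcases le_or_gt 0 R with hR | hR
  · have h1 : IntervalIntegrable (fun s : ℝ => s ^ a) volume 0 R :=
      intervalIntegral.intervalIntegrable_rpow' ha
    have h2 : IntegrableOn (fun s : ℝ => |s| ^ a) (Ioc 0 R) := by
      refine ((intervalIntegrable_iff_integrableOn_Ioc_of_le hR).1 h1).congr_fun ?_
        measurableSet_Ioc
      intro s hs
      simp only
      rw [abs_of_pos hs.1]
    have h3 : IntegrableOn (fun s : ℝ => |s| ^ a) (Ico (-R) 0) := by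
      have h4 := h2.integrable_indicator measurableSet_Ioc
      have h5 := h4.comp_neg
      rw [← integrable_indicator_iff measurableSet_Ico]
      refine h5.congr (Eventually.of_forall fun s => ?_)
      simp only
      by_cases hs : s ∈ Ico (-R) 0
      · have hs' : -s ∈ Ioc 0 R := ⟨by linarith [hs.2], by linarith [hs.1]⟩
        rw [indicator_of_mem hs, indicator_of_mem hs', abs_neg]
      · have hs' : -s ∉ Ioc 0 R := by
          intro h
          exact hs ⟨by linarith [h.2], by linarith [h.1]⟩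
        rw [indicator_of_notMem hs, indicator_of_notMem hs']
    have h6 : IntegrableOn (fun s : ℝ => |s| ^ a) {0} := by
      rw [← integrable_indicator_iff (measurableSet_singleton 0)]
      refine (integrable_zero ℝ ℝ volume).congr ?_
      have h7 : ∀ᵐ s : ℝ, s ≠ 0 := by
        rw [ae_iff]
        simp
      filter_upwards [h7] with s hs
      rw [indicator_of_notMem (by simpa using hs)]
      rfl
    refine ((h3.union h6).union h2).mono_set ?_
    intro s hs
    rcases lt_trichotomy s 0 with h | h | h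
    · exact Or.inl (Or.inl ⟨hs.1, h⟩)
    · exact Or.inl (Or.inr h)
    · exact Or.inr ⟨h, hs.2⟩
  · rw [Icc_eq_empty (by linarith)]
    exact integrableOn_empty

/-- The box bound. -/
lemma box_int {a : ℝ} (ha : -1 < a) (R : ℝ) : Integrable (fun x : V =>
    ∏ i : Fin 3, (![(Icc (-R) R).indicator (fun s : ℝ => |s| ^ a),
      (Icc (-R) R).indicator (fun s : ℝ => |s| ^ a),
      (Icc (-R) R).indicator (fun _ : ℝ => (1 : ℝ))] : Fin 3 → ℝ → ℝ) i (x i)) := by
  apply Integrable.fintype_prod
  intro i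
  fin_cases i
  · exact rp_abs_int ha R
  · exact rp_abs_int ha R
  · show Integrable ((Icc (-R) R).indicator (fun _ : ℝ => (1 : ℝ)))
    rw [integrable_indicator_iff measurableSet_Icc]
    exact integrableOn_const (by rw [Real.volume_Icc]; exact ENNReal.ofReal_ne_top)

/-- Powers of `sg` are locally integrable. -/
lemma sg_int {a : ℝ} (ha : -1 < a) {F : V → ℝ} (hF : Continuous F) (hc : HasCompactSupport F) :
    Integrable (fun x : V => sg x ^ a * F x) := by
  rcases le_or_gt 0 a with h0 | h0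
  · have h1 : Continuous fun x : V => sg x ^ a := sg_cont.rpow_const fun x => Or.inr h0
    exact (h1.mul hF).integrable_of_hasCompactSupport hc.mul_left
  · obtain ⟨B, hB⟩ := hF.bounded_above_of_compact_support hc
    obtain ⟨R, hR⟩ := (hc.isCompact.isBounded).subset_closedBall (0 : V)
    have hB0 : 0 ≤ B := (norm_nonneg _).trans (hB 0)
    have hmeas : AEStronglyMeasurable (fun x : V => sg x ^ a * F x) := by
      apply Measurable.aestronglyMeasurable
      exact (sg_cont.measurable.pow_const a).mul hF.measurable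
    refine ((box_int ha R).const_mul (2 ^ a * B)).mono' hmeas ?_
    filter_upwards [ae_crd 0, ae_crd 1] with x hx0 hx1
    by_cases hx : F x = 0
    · rw [hx, mul_zero, norm_zero]
      apply mul_nonneg (by positivity)
      apply Finset.prod_nonneg
      intro i _
      fin_cases i
      · show 0 ≤ (Icc (-R) R).indicator (fun s : ℝ => |s| ^ a) (x 0)
        exact indicator_nonneg (fun s _ => Real.rpow_nonneg (abs_nonneg s) a) _
      · show 0 ≤ (Icc (-R) R).indicator (fun s : ℝ => |s| ^ a) (x 1)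
        exact indicator_nonneg (fun s _ => Real.rpow_nonneg (abs_nonneg s) a) _
      · show 0 ≤ (Icc (-R) R).indicator (fun _ : ℝ => (1 : ℝ)) (x 2)
        exact indicator_nonneg (fun s _ => zero_le_one) _
    · have hxR := hR (subset_tsupport F hx)
      rw [mem_closedBall, dist_zero_right] at hxR
      have hxi : ∀ i, x i ∈ Icc (-R) R := fun i =>
        abs_le.1 (((norm_le_pi_norm x i)).trans hxR)
      have e1 : ∏ i : Fin 3, (![(Icc (-R) R).indicator (fun s : ℝ => |s| ^ a),
          (Icc (-R) R).indicator (fun s : ℝ => |s| ^ a),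
          (Icc (-R) R).indicator (fun _ : ℝ => (1 : ℝ))] : Fin 3 → ℝ → ℝ) i (x i)
          = |x 0| ^ a * |x 1| ^ a := by
        rw [Fin.prod_univ_three]
        show (Icc (-R) R).indicator (fun s : ℝ => |s| ^ a) (x 0) *
          (Icc (-R) R).indicator (fun s : ℝ => |s| ^ a) (x 1) *
          (Icc (-R) R).indicator (fun _ : ℝ => (1 : ℝ)) (x 2) = _
        rw [indicator_of_mem (hxi 0), indicator_of_mem (hxi 1), indicator_of_mem (hxi 2), mul_one]
      rw [e1]
      have hp0 : 0 < |x 0| := abs_pos.2 hx0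
      have hp1 : 0 < |x 1| := abs_pos.2 hx1
      have e2 : 2 * (|x 0| * |x 1|) ≤ sg x := by
        unfold sg
        nlinarith [sq_nonneg (|x 0| - |x 1|), sq_abs (x 0), sq_abs (x 1)]
      have e3 : sg x ^ a ≤ 2 ^ a * (|x 0| ^ a * |x 1| ^ a) := by
        rw [← Real.mul_rpow hp0.le hp1.le, ← Real.mul_rpow (by norm_num) (by positivity)]
        exact Real.rpow_le_rpow_of_nonpos (by positivity) e2 h0.le
      rw [norm_mul, Real.norm_of_nonneg (Real.rpow_nonneg (sg_nonneg x) a)]
      calc sg x ^ a * ‖F x‖ ≤ (2 ^ a * (|x 0| ^ a * |x 1| ^ a)) * B :=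
            mul_le_mul e3 (hB x) (norm_nonneg _) (by positivity)
        _ = 2 ^ a * B * (|x 0| ^ a * |x 1| ^ a) := by ring

lemma wt_nonneg (γ : ℝ) (x : V) : 0 ≤ wt γ x := Real.rpow_nonneg (sg_nonneg x) γ

lemma wt_pos {γ : ℝ} {x : V} (hx : sg x ≠ 0) : 0 < wt γ x :=
  Real.rpow_pos_of_pos ((sg_nonneg x).lt_of_ne' hx) γ

lemma wt_div {γ : ℝ} (hγ : 0 < γ) (hγ1 : γ < 1) (x : V) (z : ℝ) :
    wt γ x * (z / sg x) = sg x ^ (γ - 1) * z := by
  unfold wt
  by_cases hx : sg x = 0
  · rw [hx, Real.zero_rpow hγ.ne', Real.zero_rpow (by linarith)]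
    ring
  · have hx' : 0 < sg x := (sg_nonneg x).lt_of_ne' hx
    rw [Real.rpow_sub hx', Real.rpow_one]
    ring

lemma wt_cont {γ : ℝ} (hγ : 0 < γ) : Continuous fun x : V => wt γ x :=
  sg_cont.rpow_const fun _ => Or.inr hγ.le

/-- The weighted integrals converge. -/
lemma wt_int {γ : ℝ} (hγ : 0 < γ) {F : V → ℝ} (hF : Continuous F) (hc : HasCompactSupport F) :
    Integrable (fun x : V => wt γ x * F x) :=
  ((wt_cont hγ).mul hF).integrable_of_hasCompactSupport hc.mul_left

lemma wt_int_div {γ : ℝ} (hγ : 0 < γ) (hγ1 : γ < 1) {F : V → ℝ} (hF : Continuous F)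
    (hc : HasCompactSupport F) : Integrable (fun x : V => wt γ x * (F x / sg x)) :=
  (sg_int (a := γ - 1) (by linarith) hF hc).congr
    (Eventually.of_forall fun x => (wt_div hγ hγ1 x (F x)).symm)

lemma gr2_nonneg (f : V → ℝ) (x : V) : 0 ≤ gr2 f x := Finset.sum_nonneg fun _ _ => sq_nonneg _

lemma hs2_nonneg (f : V → ℝ) (x : V) : 0 ≤ hs2 f x :=
  Finset.sum_nonneg fun _ _ => Finset.sum_nonneg fun _ _ => sq_nonneg _

lemma pd_cont {f : V → ℝ} (hf : ContDiff ℝ ∞ f) (i : Fin 3) : Continuous (pd i f) :=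
  (Pool.Agent.W583.MD.sm_pd hf i).continuous

lemma pd_supp {f : V → ℝ} (hc : HasCompactSupport f) (i : Fin 3) : HasCompactSupport (pd i f) := by
  unfold pd
  exact hc.fderiv_apply (𝕜 := ℝ) _

lemma gr2_cont {f : V → ℝ} (hf : ContDiff ℝ ∞ f) : Continuous (gr2 f) := by
  unfold gr2
  exact continuous_finsetSum _ fun i _ => (pd_cont hf i).pow 2

lemma gr2_supp {f : V → ℝ} (hc : HasCompactSupport f) : HasCompactSupport (gr2 f) := by
  refine HasCompactSupport.intro hc.isCompact (fun x hx => ?_)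
  unfold gr2
  refine Finset.sum_eq_zero fun i _ => ?_
  have : pd i f x = 0 := by
    by_contra h
    exact hx ((tsupport_fderiv_apply_subset ℝ _) (subset_tsupport _ h))
  rw [this]
  norm_num

/-- The closed cylinder is in the closure of the open one. -/
lemma cy_sub_closure {c r h : ℝ} (hr : 0 < r) (hh : 0 < h) : Cy c r h ⊆ closure (Co c r h) := by
  intro x hx
  obtain ⟨hx1, hx2⟩ := hx
  have hcont : Tendsto (fun s : ℝ => (fun i => ![0, 0, c] i + s * (x i - ![0, 0, c] i) : V))
      (𝓝[<] 1) (𝓝 x) := by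
    have h1 : Continuous (fun s : ℝ => (fun i => ![0, 0, c] i + s * (x i - ![0, 0, c] i) : V)) := by
      fun_prop
    have h2 := (h1.tendsto 1).mono_left (nhdsWithin_le_nhds (s := Iio 1))
    have h3 : (fun i => ![0, 0, c] i + 1 * (x i - ![0, 0, c] i) : V) = x := by
      funext i
      ring
    rwa [h3] at h2
  refine mem_closure_of_tendsto hcont ?_
  filter_upwards [Ioo_mem_nhdsLT (show (0 : ℝ) < 1 by norm_num)] with s hs
  refine ⟨?_, ?_⟩
  · show (0 + s * (x 0 - 0)) ^ 2 + (0 + s * (x 1 - 0)) ^ 2 < r ^ 2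
    have h4 : (0 + s * (x 0 - 0)) ^ 2 + (0 + s * (x 1 - 0)) ^ 2 = s ^ 2 * sg x := by
      unfold sg
      ring
    rw [h4]
    have h5 : s ^ 2 < 1 := by nlinarith [hs.1, hs.2]
    have h6 : s ^ 2 * sg x ≤ s ^ 2 * r ^ 2 := mul_le_mul_of_nonneg_left hx1 (sq_nonneg s)
    nlinarith [sq_pos_of_pos hr]
  · show |c + s * (x 2 - c) - c| < h
    have h7 : c + s * (x 2 - c) - c = s * (x 2 - c) := by ring
    rw [h7, abs_mul, abs_of_pos hs.1]
    have h8 : s * |x 2 - c| ≤ s * h := mul_le_mul_of_nonneg_left hx2 hs.1.le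
    nlinarith [hs.2]

lemma isClosed_Cy (c r h : ℝ) : IsClosed (Cy c r h) := by
  have h2 : Continuous fun x : V => |x 2 - c| := by fun_prop
  exact (isClosed_le sg_cont continuous_const).inter (isClosed_le h2 continuous_const)

lemma isOpen_Co' (c r h : ℝ) : IsOpen (Co c r h) := by
  have h2 : Continuous fun x : V => |x 2 - c| := by fun_prop
  exact (isOpen_lt sg_cont continuous_const).inter (isOpen_lt h2 continuous_const)

/-- Derivatives of functions which agree on a cylinder. -/
lemma pd_eq_Cy {f g : V → ℝ} {c r h : ℝ} (hr : 0 < r) (hh : 0 < h) (hf : ContDiff ℝ ∞ f)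
    (hg : ContDiff ℝ ∞ g) (he : ∀ x ∈ Co c r h, f x = g x) {x : V} (hx : x ∈ Cy c r h)
    (i : Fin 3) : pd i f x = pd i g x := by
  have h1 : IsClosed {y : V | pd i f y = pd i g y} := isClosed_eq (pd_cont hf i) (pd_cont hg i)
  have h2 : Co c r h ⊆ {y : V | pd i f y = pd i g y} := by
    intro y hy
    have h3 : f =ᶠ[𝓝 y] g := by
      filter_upwards [(isOpen_Co' c r h).mem_nhds hy] with z hz
      exact he z hz
    show fderiv ℝ f y _ = fderiv ℝ g y _
    rw [h3.fderiv_eq]
  exact (h1.closure_subset_iff.2 h2) (cy_sub_closure hr hh hx)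

end Pool.Agent.Q177.AXI
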