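import Pool.Agent.Q67.AXI.Defs2
import Pool.Agent.Q285.AXI.Fin
import Pool.Agent.Q16.AXI.Mo
import Pool.Agent.Q177.AXI.Int

/-!
# Project AXW (helper67), job AXW-11 (FIN): the scaled dissipation and the mollified velocity near
# the centre, from the weaker bounds

The proofs follow those of AXI-29 (helper285) and AXI-30 (helper16).
-/

set_option autoImplicit false

open MeasureTheory Set Metric Filter Topology
open scoped ContDiff

namespace Pool.Agent.Q177.AXI

open H459R3.NS Pool.Agent.W268.NS Pool.Agent.Q67.VD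
open Pool.Agent.Q85.CC Pool.Agent.Q85.CL Pool.Agent.TH305.AX Pool.Agent.Q67.AXI
open Pool.Agent.Q285.AXI (slice co_mono near_centre ae_sg gr2_nn gr2_c ball_int cy_int vol_ball
  joint_int gsq_nn)
open Pool.Agent.Q16.AXI (zz zz_sm pd_xU nsq_zz Cy_compact ball_Cy th_bd th_nn th_int th_one
  th_supp chv)

lemma gsq_zzW {O : Set V} {v : V → V} (hA : StmAlg) (hF : StmAxF) (hv : ContDiff ℝ ∞ v)
    (ha : Axi v) (hd : DFO O v) {x : V} (hx : x ∈ O) :
    W221.NS.gsq (zz v) x ≤ 12 * (UU v x ^ 2 + sg x * (gr2 (UU v) x + OO v x ^ 2)) := by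
  obtain ⟨⟨hU, _, _, _⟩, _, _, h⟩ := hA v hv ha
  obtain ⟨h0, h1, _, _, _, _, h6, h7, _, _, _, h11⟩ := h x
  have hv2 : ContDiff ℝ ∞ (fun y => v y 2) := (contDiff_pi.1 hv) 2
  have hax2 : AxF (fun y => v y 2) := by
    intro θ y
    show v (rot θ y) 2 = v y 2
    rw [ha θ y]
    simp [rot]
  obtain ⟨_, _, _, q, hq, _, hq3⟩ := hF _ hv2 hax2
  obtain ⟨q0, q1, q2⟩ := hq3 x
  have hdx := hd x hx
  rw [h7] at hdx
  have e00 : pd 0 (fun y => zz v y 0) x = UU v x + x 0 * pd 0 (UU v) x := by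
    have h := pd_xU 0 0 hU x
    rw [show (fun y => zz v y 0) = fun y => y 0 * UU v y from rfl, h]
    simp
  have e10 : pd 1 (fun y => zz v y 0) x = x 0 * pd 1 (UU v) x := by
    have h := pd_xU 0 1 hU x
    rw [show (fun y => zz v y 0) = fun y => y 0 * UU v y from rfl, h]
    simp
  have e20 : pd 2 (fun y => zz v y 0) x = x 0 * pd 2 (UU v) x := by
    have h := pd_xU 0 2 hU x
    rw [show (fun y => zz v y 0) = fun y => y 0 * UU v y from rfl, h]
    simp
  have e01 : pd 0 (fun y => zz v y 1) x = x 1 * pd 0 (UU v) x := by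
    have h := pd_xU 1 0 hU x
    rw [show (fun y => zz v y 1) = fun y => y 1 * UU v y from rfl, h]
    simp
  have e11 : pd 1 (fun y => zz v y 1) x = UU v x + x 1 * pd 1 (UU v) x := by
    have h := pd_xU 1 1 hU x
    rw [show (fun y => zz v y 1) = fun y => y 1 * UU v y from rfl, h]
    simp
  have e21 : pd 2 (fun y => zz v y 1) x = x 1 * pd 2 (UU v) x := by
    have h := pd_xU 1 2 hU x
    rw [show (fun y => zz v y 1) = fun y => y 1 * UU v y from rfl, h]
    simp
  have ez2 : (fun y => zz v y 2) = fun y => v y 2 := by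
    funext y
    simp [zz]
  unfold W221.NS.gsq gr2
  simp only [Fin.sum_univ_three]
  rw [e00, e10, e20, e01, e11, e21, ez2]
  have e22 : pd 2 (fun y => v y 2) x = -(2 * UU v x + RR (UU v) x) := by linarith
  rw [e22]
  have hsum : pd 0 (fun y => v y 2) x ^ 2 + pd 1 (fun y => v y 2) x ^ 2
      ≤ 2 * sg x * (pd 2 (UU v) x ^ 2 + OO v x ^ 2) := by
    by_cases hs : sg x = 0
    · have hx0 : x 0 = 0 := by
        unfold sg at hs
        nlinarith [sq_nonneg (x 0), sq_nonneg (x 1)]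
      have hx1 : x 1 = 0 := by
        unfold sg at hs
        nlinarith [sq_nonneg (x 0), sq_nonneg (x 1)]
      rw [q0, q1, hs, hx0, hx1]
      simp
    · have hq' : q x = pd 2 (UU v) x - OO v x := by
        have : sg x * q x = sg x * (pd 2 (UU v) x - OO v x) := by
          rw [← q2]; linarith
        exact mul_left_cancel₀ hs this
      rw [q0, q1, hq']
      have hsx : sg x = x 0 ^ 2 + x 1 ^ 2 := rfl
      have hs0 : 0 ≤ sg x := by rw [hsx]; positivity
      have : (x 0 * (pd 2 (UU v) x - OO v x)) ^ 2 + (x 1 * (pd 2 (UU v) x - OO v x)) ^ 2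
          = sg x * (pd 2 (UU v) x - OO v x) ^ 2 := by rw [hsx]; ring
      rw [this]
      nlinarith [mul_nonneg hs0 (sq_nonneg (pd 2 (UU v) x + OO v x))]
  have hsx : sg x = x 0 ^ 2 + x 1 ^ 2 := rfl
  have hs0 : 0 ≤ sg x := by rw [hsx]; positivity
  have hRR : RR (UU v) x ^ 2 ≤ sg x * (pd 0 (UU v) x ^ 2 + pd 1 (UU v) x ^ 2) := by
    unfold RR
    rw [hsx]
    nlinarith [sq_nonneg (x 0 * pd 1 (UU v) x - x 1 * pd 0 (UU v) x)]
  generalize pd 0 (fun y => v y 2) x = g0 at *
  generalize pd 1 (fun y => v y 2) x = g1 at *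
  generalize pd 0 (UU v) x = a at *
  generalize pd 1 (UU v) x = b at *
  generalize pd 2 (UU v) x = d at *
  generalize RR (UU v) x = R at *
  generalize UU v x = U at *
  generalize OO v x = W at *
  generalize x 0 = X at *
  generalize x 1 = Y at *
  generalize sg x = s at *
  subst hsx
  have k1 : (U + X * a) ^ 2 ≤ 2 * U ^ 2 + 2 * X ^ 2 * a ^ 2 := by
    nlinarith [sq_nonneg (U - X * a)]
  have k2 : (U + Y * b) ^ 2 ≤ 2 * U ^ 2 + 2 * Y ^ 2 * b ^ 2 := by
    nlinarith [sq_nonneg (U - Y * b)]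
  have k3 : (-(2 * U + R)) ^ 2 ≤ 8 * U ^ 2 + 2 * R ^ 2 := by
    nlinarith [sq_nonneg (2 * U - R)]
  have l1 : 0 ≤ X ^ 2 * a ^ 2 := by positivity
  have l2 : 0 ≤ X ^ 2 * b ^ 2 := by positivity
  have l3 : 0 ≤ X ^ 2 * d ^ 2 := by positivity
  have l4 : 0 ≤ Y ^ 2 * a ^ 2 := by positivity
  have l5 : 0 ≤ Y ^ 2 * b ^ 2 := by positivity
  have l6 : 0 ≤ Y ^ 2 * d ^ 2 := by positivity
  have l7 : 0 ≤ X ^ 2 * U ^ 2 := by positivity
  have l8 : 0 ≤ Y ^ 2 * U ^ 2 := by positivity
  have l9 : 0 ≤ X ^ 2 * W ^ 2 := by positivity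
  have l10 : 0 ≤ Y ^ 2 * W ^ 2 := by positivity
  have m1 := sq_nonneg a
  have m2 := sq_nonneg b
  have m3 := sq_nonneg d
  have m4 := sq_nonneg W
  linarith

lemma moW (hA : StmAlg) (hF : StmAxF) (T E c R H r h T₁ K : ℝ) (u : ℝ → V → V) (p : ℝ → V → ℝ)
    (hu : AxL T E c R H u p) (hr : 0 < r) (hrR : r < R) (hh : 0 < h) (hhH : h < H) (hT₁ : 0 < T₁)
    (hT₁T : T₁ < T) (hK : 0 ≤ K)
    (hb : ∀ t ∈ Ico T₁ T, (∀ x ∈ Cy c r h, |WW (u t) x| ≤ K) ∧
      ∫ x in Cy c r h, (UU (u t) x ^ 2 + sg x * (gr2 (UU (u t)) x + OO (u t) x ^ 2)) ≤ K) :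
    ∃ K₀ : ℝ, 0 ≤ K₀ ∧ Mo K₀ T u ![0, 0, c] := by
  obtain ⟨C, hC, hsob⟩ := Pool.Agent.W440.MD.t_SOB
  obtain ⟨Ct, hCt, hth⟩ := th_bd
  obtain ⟨ρ, hρ⟩ : ∃ ρ, ρ = min (r / 2) h := ⟨_, rfl⟩
  have hρ0 : 0 < ρ := by rw [hρ]; exact lt_min (by linarith) hh
  have hρr : ρ ≤ r / 2 := by rw [hρ]; exact min_le_left _ _
  have hρh : ρ ≤ h := by rw [hρ]; exact min_le_right _ _
  obtain ⟨a, hadef⟩ : ∃ a : V, a = ![0, 0, c] := ⟨_, rfl⟩
  have hCy : ∀ x : V, ‖x - a‖ < ρ → x ∈ Cy c r h := by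
    intro x hx
    rw [hadef] at hx
    exact ball_Cy hρr hρh hx
  have hCyCo : Cy c r h ⊆ Co c R H := by
    intro x hx
    have h1 : sg x ≤ r ^ 2 := hx.1
    have h2 : |x 2 - c| ≤ h := hx.2
    exact ⟨by nlinarith, by linarith⟩
  have hE : 0 ≤ max E 0 := le_max_right _ _
  obtain ⟨M, hM⟩ : ∃ M, M = C * (12 * K
    + ((ρ / 2) ^ 2)⁻¹ * max E 0) ^ 3 := ⟨_, rfl⟩
  have hM0 : 0 ≤ M := by rw [hM]; positivity
  -- the bound of the sixth powers
  have key : ∀ t ∈ Ico T₁ T, W221.NS.L6 a (ρ / 2) (zz (u t)) ≤ M := by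
    intro t ht
    have ht' : t ∈ Ioo 0 T := ⟨lt_of_lt_of_le hT₁ ht.1, ht.2⟩
    have hv : ContDiff ℝ ∞ (u t) := by
      have h1 := hu.smooth_u
      rw [← contDiffOn_univ]
      exact h1.comp (contDiff_const.prodMk contDiff_id).contDiffOn
        (fun y _ => ⟨ht', mem_univ _⟩)
    have ha := hu.axi t ht'
    have hd : DFO (Co c R H) (u t) := hu.divfree t ht'
    obtain ⟨⟨hU, _, _, hO⟩, _⟩ := hA (u t) hv ha
    have hzs := zz_sm hv hU
    have h1 := hsob (zz (u t)) hzs a (ρ / 2) (by linarith)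
    refine h1.trans ?_
    rw [hM]
    have e2 : 2 * (ρ / 2) = ρ := by ring
    rw [e2]
    have hsub : ball a ρ ⊆ Cy c r h := by
      intro x hx
      apply hCy
      rw [← dist_eq_norm]
      exact hx
    have hUc : Continuous (fun x => UU (u t) x ^ 2 + sg x * (gr2 (UU (u t)) x + OO (u t) x ^ 2)) := by
      have hg : Continuous (gr2 (UU (u t))) := by
        unfold gr2
        exact continuous_finsetSum _ fun i _ => (Pool.Agent.W440.MD.cont_pd hU i).pow 2
      exact (hU.continuous.pow 2).add (sg_cont.mul (hg.add (hO.continuous.pow 2)))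
    have hzc : ∀ i, ContDiff ℝ ∞ (fun y => zz (u t) y i) := fun i => (contDiff_pi.1 hzs) i
    have hgc : Continuous (W221.NS.gsq (zz (u t))) := by
      unfold W221.NS.gsq
      exact continuous_finsetSum _ fun i _ => continuous_finsetSum _ fun j _ =>
        (Pool.Agent.W440.MD.cont_pd (hzc i) j).pow 2
    have hnc : Continuous (W221.NS.nsq (zz (u t))) := by
      unfold W221.NS.nsq
      exact continuous_finsetSum _ fun i _ => (hzc i).continuous.pow 2
    have hnv : Continuous (W221.NS.nsq (u t)) := by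
      unfold W221.NS.nsq
      exact continuous_finsetSum _ fun i _ => ((contDiff_pi.1 hv) i).continuous.pow 2
    have hUi : IntegrableOn (fun x => UU (u t) x ^ 2 + sg x * (gr2 (UU (u t)) x + OO (u t) x ^ 2))
        (Cy c r h) := hUc.continuousOn.integrableOn_compact (Cy_compact c r h)
    have hB : W221.NS.B2 a ρ (zz (u t)) ≤ 12 * K := by
      unfold W221.NS.B2
      calc ∫ z in ball a ρ, W221.NS.gsq (zz (u t)) z
          ≤ ∫ z in ball a ρ, 12
              * (UU (u t) z ^ 2 + sg z * (gr2 (UU (u t)) z + OO (u t) z ^ 2)) := by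
            apply setIntegral_mono_on (Pool.Agent.W440.MD.int_ball hgc a ρ)
              ((hUi.mono_set hsub).const_mul _) measurableSet_ball
            intro x hx
            have hx1 := hsub hx
            exact gsq_zzW hA hF hv ha hd (hCyCo hx1)
        _ = 12 * ∫ z in ball a ρ,
              (UU (u t) z ^ 2 + sg z * (gr2 (UU (u t)) z + OO (u t) z ^ 2)) := integral_const_mul _ _
        _ ≤ 12 * K := by
            apply mul_le_mul_of_nonneg_left _ (by positivity)
            refine (setIntegral_mono_set hUi ?_ hsub.eventuallyLE).trans (hb t ht).2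
            filter_upwards with x
            have n1 := gr2_nonneg (UU (u t)) x
            have n2 := sg_nonneg x
            show 0 ≤ UU (u t) x ^ 2 + sg x * (gr2 (UU (u t)) x + OO (u t) x ^ 2)
            positivity
    have hAA : W221.NS.A2 a ρ (zz (u t)) ≤ max E 0 := by
      unfold W221.NS.A2
      calc ∫ z in ball a ρ, W221.NS.nsq (zz (u t)) z
          ≤ ∫ z in ball a ρ, W221.NS.nsq (u t) z := by
            apply setIntegral_mono_on (Pool.Agent.W440.MD.int_ball hnc a ρ)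
              (Pool.Agent.W440.MD.int_ball hnv a ρ) measurableSet_ball
            intro x _
            exact nsq_zz hA hv ha x
        _ ≤ ∫ z in Co c R H, W221.NS.nsq (u t) z := by
            refine setIntegral_mono_set (hu.en_int t ht') ?_ (hsub.trans hCyCo).eventuallyLE
            filter_upwards with x
            show 0 ≤ W221.NS.nsq (u t) x
            unfold W221.NS.nsq
            positivity
        _ ≤ E := hu.en t ht'
        _ ≤ max E 0 := le_max_left _ _
    have hB0 : 0 ≤ W221.NS.B2 a ρ (zz (u t)) := by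
      unfold W221.NS.B2
      apply setIntegral_nonneg measurableSet_ball
      intro x _
      unfold W221.NS.gsq
      positivity
    have hA0 : 0 ≤ W221.NS.A2 a ρ (zz (u t)) := by
      unfold W221.NS.A2
      apply setIntegral_nonneg measurableSet_ball
      intro x _
      unfold W221.NS.nsq
      positivity
    gcongr
  refine ⟨r * K + 1 + Ct * M, by positivity, T₁, min 1 (ρ / 4), ρ / 4, hT₁.le, hT₁T,
    lt_min one_pos (by linarith), by linarith, ?_⟩
  intro t ht x hx s hs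
  have hs0 : 0 < s := hs.1
  have hs1 : s ≤ 1 := hs.2.trans (min_le_left _ _)
  have hsρ : s ≤ ρ / 4 := hs.2.trans (min_le_right _ _)
  have htI : t ∈ Ico T₁ T := ⟨ht.1.le, ht.2⟩
  have ht' : t ∈ Ioo 0 T := ⟨hT₁.trans ht.1, ht.2⟩
  have hv : ContDiff ℝ ∞ (u t) := by
    have h1 := hu.smooth_u
    rw [← contDiffOn_univ]
    exact h1.comp (contDiff_const.prodMk contDiff_id).contDiffOn
      (fun y _ => ⟨ht', mem_univ _⟩)
  have ha := hu.axi t ht'
  obtain ⟨⟨hU, hW, _, _⟩, _, _, hal⟩ := hA (u t) hv ha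
  have hzs := zz_sm hv hU
  have hzc : ∀ i, ContDiff ℝ ∞ (fun y => zz (u t) y i) := fun i => (contDiff_pi.1 hzs) i
  have hxa : ‖x - a‖ ≤ ρ / 4 := by
    rw [← dist_eq_norm, hadef]
    exact hx
  have hin : ∀ y : V, ‖y‖ < 1 → ‖x + s • y - a‖ < ρ / 2 := by
    intro y hy
    have e1 : x + s • y - a = (x - a) + s • y := by abel
    rw [e1]
    have h1 := norm_add_le (x - a) (s • y)
    rw [norm_smul, Real.norm_of_nonneg hs0.le] at h1
    have h2 : s * ‖y‖ < s * 1 := by
      apply mul_lt_mul_of_pos_left hy hs0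
    linarith
  have hn6 : Continuous (fun y => W221.NS.nsq (zz (u t)) y ^ 3) := by
    unfold W221.NS.nsq
    exact (continuous_finsetSum _ fun i _ => (hzc i).continuous.pow 2).pow 3
  rw [pi_norm_le_iff_of_nonneg (by positivity)]
  intro i
  rw [Real.norm_eq_abs]
  unfold W221.NS.mol
  -- pointwise bound of the integrand
  have hpt : ∀ y : V, |W221.NS.th y * u t (x + s • y) i|
      ≤ W221.NS.th y * (r * K + s⁻¹) + (ball (0 : V) 1).indicator
        (fun y => Ct * s ^ 5 * W221.NS.nsq (zz (u t)) (x + s • y) ^ 3) y := by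
    intro y
    have hn0 : ∀ y, 0 ≤ W221.NS.nsq (zz (u t)) y := by
      intro y
      unfold W221.NS.nsq
      positivity
    by_cases hy : W221.NS.th y = 0
    · rw [hy]
      simp only [zero_mul, abs_zero, zero_add]
      apply indicator_nonneg
      intro z _
      have := hn0 (x + s • z)
      positivity
    · have hy1 : ‖y‖ < 1 := th_supp hy
      have hyb : y ∈ ball (0 : V) 1 := by simpa using hy1
      rw [indicator_of_mem hyb, abs_mul, abs_of_nonneg (th_nn y)]
      have hx' := hin y hy1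
      obtain ⟨x', hx'def⟩ : ∃ x', x' = x + s • y := ⟨_, rfl⟩
      rw [← hx'def] at hx' ⊢
      have hcy : x' ∈ Cy c r h := hCy x' (by linarith)
      have hWb : |WW (u t) x'| ≤ K := (hb t htI).1 x' hcy
      obtain ⟨g0, g1, _⟩ := hal x'
      have hsg : sg x' ≤ r ^ 2 := hcy.1
      have hx0 : |x' 0| ≤ r := by
        apply abs_le_of_sq_le_sq' _ hr.le |> fun h => abs_le.2 h
        unfold sg at hsg
        nlinarith [sq_nonneg (x' 1)]
      have hx1 : |x' 1| ≤ r := by
        apply abs_le_of_sq_le_sq' _ hr.le |> fun h => abs_le.2 h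
        unfold sg at hsg
        nlinarith [sq_nonneg (x' 0)]
      have hsplit : |u t x' i| ≤ r * K + |zz (u t) x' i| := by
        fin_cases i
        · show |u t x' 0| ≤ r * K + |x' 0 * UU (u t) x'|
          rw [g0]
          have h1 := abs_sub (x' 0 * UU (u t) x') (x' 1 * WW (u t) x')
          have h2 : |x' 1 * WW (u t) x'| ≤ r * K := by
            rw [abs_mul]
            gcongr
          linarith
        · show |u t x' 1| ≤ r * K + |x' 1 * UU (u t) x'|
          rw [g1]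
          have h1 := abs_add_le (x' 1 * UU (u t) x') (x' 0 * WW (u t) x')
          have h2 : |x' 0 * WW (u t) x'| ≤ r * K := by
            rw [abs_mul]
            gcongr
          linarith
        · show |u t x' 2| ≤ r * K + |u t x' 2|
          have : 0 ≤ r * K := by positivity
          linarith
      have hyoung : |zz (u t) x' i| ≤ s⁻¹ + s ^ 5 * W221.NS.nsq (zz (u t)) x' ^ 3 := by
        have h1 : zz (u t) x' i ^ 2 ≤ W221.NS.nsq (zz (u t)) x' := by
          unfold W221.NS.nsq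
          exact Finset.single_le_sum (f := fun i => zz (u t) x' i ^ 2)
            (fun j _ => sq_nonneg _) (Finset.mem_univ i)
        have h2 : |zz (u t) x' i| ^ 6 ≤ W221.NS.nsq (zz (u t)) x' ^ 3 := by
          calc |zz (u t) x' i| ^ 6 = (zz (u t) x' i ^ 2) ^ 3 := by
                rw [← sq_abs (zz (u t) x' i)]; ring
            _ ≤ _ := by gcongr
        obtain ⟨b, hb'⟩ : ∃ b, b = |zz (u t) x' i| := ⟨_, rfl⟩
        have hb0 : 0 ≤ b := by rw [hb']; exact abs_nonneg _
        rw [← hb'] at h2 ⊢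
        have h3 : s * b ≤ 1 + (s * b) ^ 6 := by
          by_cases h4 : s * b ≤ 1
          · have : 0 ≤ (s * b) ^ 6 := by positivity
            linarith
          · rw [not_le] at h4
            have : (s * b) ^ 1 ≤ (s * b) ^ 6 := pow_le_pow_right₀ h4.le (by norm_num)
            rw [pow_one] at this
            linarith
        have h5 : b = s⁻¹ * (s * b) := by field_simp
        rw [h5]
        calc s⁻¹ * (s * b) ≤ s⁻¹ * (1 + (s * b) ^ 6) := by gcongr
          _ = s⁻¹ + s ^ 5 * b ^ 6 := by field_simp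
          _ ≤ s⁻¹ + s ^ 5 * W221.NS.nsq (zz (u t)) x' ^ 3 := by gcongr
      have ht1 := hth y
      have ht0 := th_nn y
      have hn3 : 0 ≤ s ^ 5 * W221.NS.nsq (zz (u t)) x' ^ 3 := by
        have := hn0 x'
        positivity
      calc W221.NS.th y * |u t x' i|
          ≤ W221.NS.th y * ((r * K + s⁻¹) + s ^ 5 * W221.NS.nsq (zz (u t)) x' ^ 3) := by
            apply mul_le_mul_of_nonneg_left _ ht0
            linarith
        _ = W221.NS.th y * (r * K + s⁻¹)
            + W221.NS.th y * (s ^ 5 * W221.NS.nsq (zz (u t)) x' ^ 3) := by ring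
        _ ≤ W221.NS.th y * (r * K + s⁻¹)
            + Ct * (s ^ 5 * W221.NS.nsq (zz (u t)) x' ^ 3) := by gcongr
        _ = _ := by ring
  have hi2 : Integrable ((ball (0 : V) 1).indicator
      (fun y => Ct * s ^ 5 * W221.NS.nsq (zz (u t)) (x + s • y) ^ 3)) := by
    rw [integrable_indicator_iff measurableSet_ball]
    apply Pool.Agent.W440.MD.int_ball
    have : Continuous (fun y : V => x + s • y) := by fun_prop
    exact continuous_const.mul (hn6.comp this)
  have hi1 : Integrable (fun y : V => W221.NS.th y * (r * K + s⁻¹)) := th_int.mul_const _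
  have hL6 : ∫ y in ball x s, W221.NS.nsq (zz (u t)) y ^ 3 ≤ M := by
    refine le_trans ?_ (key t htI)
    unfold W221.NS.L6
    apply setIntegral_mono_set (Pool.Agent.W440.MD.int_ball hn6 _ _)
    · filter_upwards with y
      show 0 ≤ W221.NS.nsq (zz (u t)) y ^ 3
      unfold W221.NS.nsq
      positivity
    · apply LE.le.eventuallyLE
      intro y hy
      rw [mem_ball, dist_eq_norm] at hy ⊢
      have h1 := norm_add_le (y - x) (x - a)
      rw [sub_add_sub_cancel] at h1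
      linarith
  calc |∫ y, W221.NS.th y * u t (x + s • y) i|
      ≤ ∫ y, |W221.NS.th y * u t (x + s • y) i| := abs_integral_le_integral_abs
    _ ≤ ∫ y, (W221.NS.th y * (r * K + s⁻¹) + (ball (0 : V) 1).indicator
        (fun y => Ct * s ^ 5 * W221.NS.nsq (zz (u t)) (x + s • y) ^ 3) y) := by
        apply integral_mono_of_nonneg
        · filter_upwards with y
          exact abs_nonneg _
        · exact hi1.add hi2
        · filter_upwards with y
          exact hpt y
    _ = (r * K + s⁻¹) + Ct * s ^ 5 * ((s ^ 3)⁻¹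
          * ∫ y in ball x s, W221.NS.nsq (zz (u t)) y ^ 3) := by
        rw [integral_add hi1 hi2, integral_mul_const, th_one, one_mul,
          integral_indicator measurableSet_ball, integral_const_mul,
          chv (fun y => W221.NS.nsq (zz (u t)) y ^ 3) x hs0]
    _ ≤ (r * K + s⁻¹) + Ct * s ^ 5 * ((s ^ 3)⁻¹ * M) := by gcongr
    _ = r * K + s⁻¹ + Ct * M * s ^ 2 := by
        field_simp
    _ ≤ (r * K + 1 + Ct * M) / s := by
        rw [le_div_iff₀ hs0]
        have e1 : (r * K + s⁻¹ + Ct * M * s ^ 2) * s = r * K * s + 1 + Ct * M * s ^ 3 := by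
          field_simp
        rw [e1]
        have k1 : r * K * s ≤ r * K * 1 := by gcongr
        have k2 : s ^ 3 ≤ 1 := pow_le_one₀ hs0.le hs1
        have k3 : Ct * M * s ^ 3 ≤ Ct * M * 1 := by gcongr
        linarith

lemma qtW (hAlg : StmAlg) (hDiv : StmDiv) (hJnt : StmJnt) (hCac : StmCac)
    (T E c R H r h T₁ K : ℝ) (u : ℝ → V → V) (p : ℝ → V → ℝ)
    (hA : AxL T E c R H u p) (hr : 0 < r) (hrR : r < R) (hh : 0 < h) (hhH : h < H) (hT₁ : 0 < T₁)
    (hT₁T : T₁ < T) (hK : 0 ≤ K)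
    (hb : ∀ t ∈ Ico T₁ T, (∀ x ∈ Cy c r h, |WW (u t) x| ≤ K) ∧
      ∫ x in Cy c r h, (UU (u t) x ^ 2 + sg x * (gr2 (UU (u t)) x + OO (u t) x ^ 2)) ≤ K)
    (ε : ℝ) (hε : 0 < ε) : Qt ε T u ![0, 0, c] := by
  have hsub : Co c r h ⊆ Co c R H := co_mono hr hrR hhH
  have hsm : ∀ t ∈ Ioo 0 T, ContDiff ℝ ∞ (UU (u t)) ∧ ContDiff ℝ ∞ (WW (u t)) ∧
      ContDiff ℝ ∞ (JJ (u t)) ∧ ContDiff ℝ ∞ (OO (u t)) := fun t ht =>
    (hAlg (u t) (slice hA.smooth_u ht) (hA.axi t ht)).1
  obtain ⟨C₁, hC₁, hdiv⟩ := hDiv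
  obtain ⟨C₂, ρ, T₂, hC₂, hρ, hT₁₂, hT₂T, hcac⟩ := hCac T E c R H r h T₁ K u p hA hr hrR hh hhH hT₁
    hT₁T hK (fun t ht => ⟨(hb t ht).1, by
      have ht' : t ∈ Ioo 0 T := ⟨hT₁.trans_le ht.1, ht.2⟩
      obtain ⟨s1, s2, s3, s4⟩ := hsm t ht'
      refine le_trans ?_ (hb t ht).2
      apply integral_mono_of_nonneg (Eventually.of_forall fun x => sq_nonneg _)
      · exact cy_int ((s1.continuous.pow 2).add (sg_cont.mul ((gr2_c s1).add
          (s4.continuous.pow 2)))) c r h hr.le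
      · refine Eventually.of_forall fun x => ?_
        have n1 := gr2_nn (UU (u t)) x
        have n2 := sg_nonneg x
        have n3 : 0 ≤ sg x * (gr2 (UU (u t)) x + OO (u t) x ^ 2) := by positivity
        simp only
        linarith⟩)
  -- the radii
  obtain ⟨ρ', hρ'⟩ : ∃ ρ' : ℝ, ρ' = min (min ρ (r / 4)) (min (h / 4) (1 / 4)) := ⟨_, rfl⟩
  have hρ'0 : 0 < ρ' := by
    rw [hρ']
    exact lt_min (lt_min hρ (by positivity)) (lt_min (by positivity) (by norm_num))
  have q1 : ρ' ≤ ρ := by rw [hρ']; exact (min_le_left _ _).trans (min_le_left _ _)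
  have q2 : ρ' ≤ r / 4 := by rw [hρ']; exact (min_le_left _ _).trans (min_le_right _ _)
  have q3 : ρ' ≤ h / 4 := by rw [hρ']; exact (min_le_right _ _).trans (min_le_left _ _)
  have q4 : ρ' ≤ 1 / 4 := by rw [hρ']; exact (min_le_right _ _).trans (min_le_right _ _)
  obtain ⟨C₃, hC₃⟩ : ∃ C₃ : ℝ, C₃ = C₁ * (K + K ^ 2 * 8) + C₁ * C₂ := ⟨_, rfl⟩
  have hC₃0 : 0 ≤ C₃ := by rw [hC₃]; positivity
  obtain ⟨r₁, hr₁⟩ : ∃ r₁ : ℝ, r₁ = min (min ρ' (T₂ - T₁)) (ε / (C₃ + 1)) := ⟨_, rfl⟩
  have hr₁0 : 0 < r₁ := by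
    rw [hr₁]
    exact lt_min (lt_min hρ'0 (by linarith)) (by positivity)
  have q5 : r₁ ≤ ρ' := by rw [hr₁]; exact (min_le_left _ _).trans (min_le_left _ _)
  have q6 : r₁ ≤ T₂ - T₁ := by rw [hr₁]; exact (min_le_left _ _).trans (min_le_right _ _)
  have q7 : r₁ ≤ ε / (C₃ + 1) := by rw [hr₁]; exact min_le_right _ _
  refine ⟨T₂, r₁, ρ', by linarith, hT₂T, hr₁0, hρ'0, fun t ht x hx s hs => ?_⟩
  rw [mem_closedBall, dist_eq_norm] at hx
  have hs1 : s ≤ 1 := by linarith [hs.2]
  have hs2 : s ^ 2 ≤ T₂ - T₁ := by nlinarith [hs.1, hs.2]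
  have hs3 : T₁ < t - s ^ 2 := by linarith [ht.1]
  -- the bound at one time
  have one : ∀ τ ∈ Ioo (t - s ^ 2) t, W221.NS.B2 x s (u τ) ≤
      C₁ * (K + K ^ 2 * 8) + C₁ * ∫ y in ball x s, gr2 (WW (u τ)) y := by
    intro τ hτ
    have hτ1 : τ ∈ Ico T₁ T := ⟨by linarith [hτ.1], hτ.2.trans ht.2⟩
    have hτ' : τ ∈ Ioo 0 T := ⟨hT₁.trans_le hτ1.1, hτ1.2⟩
    obtain ⟨s1, s2, s3, s4⟩ := hsm τ hτ'
    obtain ⟨b1, b2⟩ := hb τ hτ1
    have hc1 : Continuous fun y => UU (u τ) y ^ 2 + sg y * (gr2 (UU (u τ)) y + OO (u τ) y ^ 2) :=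
      (s1.continuous.pow 2).add (sg_cont.mul ((gr2_c s1).add (s4.continuous.pow 2)))
    have hc2 : Continuous fun y => WW (u τ) y ^ 2 := s2.continuous.pow 2
    have hc3 : Continuous fun y => gr2 (WW (u τ)) y := gr2_c s2
    have i1 := ball_int hc1 x s
    have i2 := ball_int hc2 x s
    have i3 := ball_int hc3 x s
    have hmem : ∀ y ∈ ball x s, y ∈ Co c r h ∧ y ∈ Cy c r h ∧ sg y ≤ 1 := fun y hy =>
      near_centre hr hh q2 q3 q4 hx (hs.2.trans q5) hy
    have e1 : W221.NS.B2 x s (u τ) ≤ ∫ y in ball x s,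
        C₁ * ((UU (u τ) y ^ 2 + sg y * (gr2 (UU (u τ)) y + OO (u τ) y ^ 2)) + WW (u τ) y ^ 2 +
          gr2 (WW (u τ)) y) := by
      unfold W221.NS.B2
      apply integral_mono_of_nonneg (Eventually.of_forall fun y => gsq_nn _ y)
      · exact ((i1.add i2).add i3).const_mul C₁
      · rw [EventuallyLE, ae_restrict_iff' measurableSet_ball]
        filter_upwards [ae_sg] with y hy hyb
        obtain ⟨m1, m2, m3⟩ := hmem y hyb
        have hd := (hdiv (Co c R H) (u τ) hA.openO (slice hA.smooth_u hτ') (hA.axi τ hτ')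
          (fun z hz => hA.divfree τ hτ' z hz) y (hsub m1) hy).2
        refine hd.trans (mul_le_mul_of_nonneg_left ?_ hC₁.le)
        have g2 := gr2_nn (WW (u τ)) y
        have g4 : sg y * gr2 (WW (u τ)) y ≤ 1 * gr2 (WW (u τ)) y :=
          mul_le_mul_of_nonneg_right m3 g2
        linarith
    have e2 : ∫ y in ball x s, (UU (u τ) y ^ 2 + sg y * (gr2 (UU (u τ)) y + OO (u τ) y ^ 2)) ≤ K := by
      refine le_trans ?_ b2
      refine setIntegral_mono_set (cy_int hc1 c r h hr.le) ?_ ?_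
      · refine Eventually.of_forall fun y => ?_
        have n1 := gr2_nn (UU (u τ)) y
        have n2 := sg_nonneg y
        simp only [Pi.zero_apply]
        positivity
      · exact LE.le.eventuallyLE (show ball x s ⊆ Cy c r h from
          fun y hy => (hmem y hy).2.1)
    have e3 : ∫ y in ball x s, WW (u τ) y ^ 2 ≤ K ^ 2 * 8 := by
      have h4 : ∫ y in ball x s, WW (u τ) y ^ 2 ≤ ∫ _ in ball x s, K ^ 2 := by
        apply setIntegral_mono_on i2 (integrableOn_const (by
          exact measure_ball_lt_top.ne)) measurableSet_ball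
        intro y hy
        have := b1 y (hmem y hy).2.1
        rw [← sq_abs]
        exact pow_le_pow_left₀ (abs_nonneg _) this 2
      rw [setIntegral_const, smul_eq_mul, mul_comm] at h4
      exact h4.trans (mul_le_mul_of_nonneg_left (vol_ball hs.1 hs1) (sq_nonneg K))
    have e4 : ∫ y in ball x s,
        ((UU (u τ) y ^ 2 + sg y * (gr2 (UU (u τ)) y + OO (u τ) y ^ 2)) + WW (u τ) y ^ 2 +
          gr2 (WW (u τ)) y) =
        (∫ y in ball x s, (UU (u τ) y ^ 2 + sg y * (gr2 (UU (u τ)) y + OO (u τ) y ^ 2))) +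
        (∫ y in ball x s, WW (u τ) y ^ 2) + ∫ y in ball x s, gr2 (WW (u τ)) y :=
      (integral_add (i1.add i2) i3).trans (congrArg (· + _) (integral_add i1 i2))
    rw [integral_const_mul, e4] at e1
    refine e1.trans ?_
    rw [← mul_add]
    apply mul_le_mul_of_nonneg_left _ hC₁.le
    linarith
  -- integration in time
  have hj : IntegrableOn (fun τ => ∫ y in ball x s, gr2 (WW (u τ)) y) (Ioo (t - s ^ 2) t) := by
    apply joint_int (g := fun τ y => gr2 (WW (u τ)) y) _ (by linarith) ht.2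
    unfold gr2
    exact continuousOn_finsetSum _ fun i _ =>
      (W335.MD.pd_cont (g := fun τ y => WW (u τ) y) (hJnt T u hA.smooth_u).2.1 i).pow 2
  have hconst : IntegrableOn (fun _ : ℝ => C₁ * (K + K ^ 2 * 8)) (Ioo (t - s ^ 2) t) :=
    integrableOn_const (by rw [Real.volume_Ioo]; exact ENNReal.ofReal_ne_top)
  have h5 : ∫ τ in Ioo (t - s ^ 2) t, W221.NS.B2 x s (u τ) ≤
      ∫ τ in Ioo (t - s ^ 2) t, (C₁ * (K + K ^ 2 * 8) + C₁ * ∫ y in ball x s, gr2 (WW (u τ)) y) := by
    apply integral_mono_of_nonneg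
    · exact Eventually.of_forall fun τ => integral_nonneg fun y => gsq_nn _ y
    · exact hconst.add (hj.const_mul C₁)
    · rw [EventuallyLE, ae_restrict_iff' measurableSet_Ioo]
      exact Eventually.of_forall fun τ hτ => one τ hτ
  rw [integral_add hconst (hj.const_mul C₁), setIntegral_const, smul_eq_mul,
    Measure.real, Real.volume_Ioo, ENNReal.toReal_ofReal (by nlinarith [sq_nonneg s]),
    integral_const_mul] at h5
  have h6 := hcac t ht x (hx.trans q1) s ⟨hs.1, hs.2.trans (q5.trans q1)⟩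
  have h7 : C₁ * ∫ τ in Ioo (t - s ^ 2) t, ∫ y in ball x s, gr2 (WW (u τ)) y ≤ C₁ * (C₂ * s ^ 2) :=
    mul_le_mul_of_nonneg_left h6 hC₁.le
  have h8 : ∫ τ in Ioo (t - s ^ 2) t, W221.NS.B2 x s (u τ) ≤ C₃ * s ^ 2 := by
    rw [hC₃]
    have : t - (t - s ^ 2) = s ^ 2 := by ring
    rw [this] at h5
    linarith
  refine h8.trans ?_
  have h9 : C₃ * s ≤ ε := by
    have h10 : s ≤ ε / (C₃ + 1) := hs.2.trans q7
    rw [le_div_iff₀ (by positivity)] at h10
    nlinarith [hs.1]
  nlinarith [hs.1]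

theorem finW (hAlg : StmAlg) (hAxF : StmAxF) (hDiv : StmDiv) (hJnt : StmJnt) (hCac : StmCac) :
    StmFinW := by
  intro T E c R H r h T₁ K u p hA hr hrR hh hhH hT₁ hT₁T hK hb
  exact ⟨fun ε hε => qtW hAlg hDiv hJnt hCac T E c R H r h T₁ K u p hA hr hrR hh hhH hT₁ hT₁T hK
    hb ε hε, moW hAlg hAxF T E c R H r h T₁ K u p hA hr hrR hh hhH hT₁ hT₁T hK hb⟩

end Pool.Agent.Q177.AXI
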