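import Mathlib

/-!
# Project AXW (helper67), job AXW-9: Gronwall's inequality with an integrable coefficient
-/

set_option autoImplicit false

open MeasureTheory Set Filter Topology

namespace Pool.Agent.Q177.AXI

/-- Gronwall's inequality with an integrable coefficient; the dissipation is integrable. -/
lemma gron {T₁ T C : ℝ} {Y D b G : ℝ → ℝ} (hT : T₁ < T) (hC : 0 ≤ C)
    (hb : ContinuousOn b (Ico T₁ T)) (hbi : IntegrableOn b (Ico T₁ T))
    (hb0 : ∀ t ∈ Ico T₁ T, 0 ≤ b t)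
    (hG : ContinuousOn G (Ico T₁ T)) (hG0 : ∀ t ∈ Ico T₁ T, 0 ≤ G t)
    (hY0 : ∀ t ∈ Ico T₁ T, 0 ≤ Y t) (hder : ∀ t ∈ Ico T₁ T, HasDerivAt Y (D t) t)
    (hD : ∀ t ∈ Ico T₁ T, D t ≤ -G t + b t * Y t + C) :
    ∃ M : ℝ, 0 ≤ M ∧ ∀ t ∈ Ico T₁ T, Y t ≤ M ∧ ∫ s in T₁..t, G s ≤ M := by
  obtain ⟨L, hL⟩ : ∃ L : ℝ, L = ∫ s in Ico T₁ T, b s := ⟨_, rfl⟩
  obtain ⟨β, hβ⟩ : ∃ β : ℝ → ℝ, β = fun t => ∫ s in T₁..t, b s := ⟨_, rfl⟩
  have hbI : ∀ t ∈ Ico T₁ T, IntervalIntegrable b volume T₁ t := by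
    intro t ht
    rw [intervalIntegrable_iff_integrableOn_Icc_of_le ht.1]
    exact hbi.mono_set (fun s hs => ⟨hs.1, hs.2.trans_lt ht.2⟩)
  have hβ0 : ∀ t ∈ Ico T₁ T, 0 ≤ β t := by
    intro t ht
    rw [hβ]
    exact intervalIntegral.integral_nonneg ht.1 fun s hs => hb0 s ⟨hs.1, hs.2.trans_lt ht.2⟩
  have hβL : ∀ t ∈ Ico T₁ T, β t ≤ L := by
    intro t ht
    rw [hβ, hL]
    simp only
    rw [intervalIntegral.integral_of_le ht.1]
    refine setIntegral_mono_set hbi ?_ ?_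
    · rw [EventuallyLE, ae_restrict_iff' measurableSet_Ico]
      exact Eventually.of_forall fun s hs => hb0 s hs
    · exact LE.le.eventuallyLE (show Ioc T₁ t ⊆ Ico T₁ T from
        fun s hs => ⟨hs.1.le, hs.2.trans_lt ht.2⟩)
  have hL0 : 0 ≤ L := (hβ0 T₁ ⟨le_rfl, hT⟩).trans (hβL T₁ ⟨le_rfl, hT⟩)
  obtain ⟨e, he⟩ : ∃ e : ℝ, e = Real.exp (-L) := ⟨_, rfl⟩
  have he0 : 0 < e := by rw [he]; exact Real.exp_pos _
  have hYd : ∀ t ∈ Ico T₁ T, ContinuousAt Y t := fun t ht => (hder t ht).continuousAt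
  have key : ∀ t ∈ Ico T₁ T, Y t * Real.exp (-β t) - Y T₁ ≤ ∫ s in T₁..t, (C - e * G s) := by
    intro t ht
    have hβc : ContinuousOn β (Icc T₁ t) := by
      have h1 : IntegrableOn b (uIcc T₁ t) := by
        rw [uIcc_of_le ht.1]
        exact hbi.mono_set (fun s hs => ⟨hs.1, hs.2.trans_lt ht.2⟩)
      have h2 := intervalIntegral.continuousOn_primitive_interval (μ := volume) h1
      rw [uIcc_of_le ht.1] at h2
      rw [hβ]
      exact h2
    have h4 := intervalIntegral.sub_le_integral_of_hasDeriv_right_of_le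
      (g := fun s => Y s * Real.exp (-β s))
      (g' := fun s => D s * Real.exp (-β s) + Y s * (Real.exp (-β s) * (-b s)))
      (φ := fun s => C - e * G s) ht.1
      (by
        apply ContinuousOn.mul
        · exact fun s hs => (hYd s ⟨hs.1, hs.2.trans_lt ht.2⟩).continuousWithinAt
        · exact Real.continuous_exp.comp_continuousOn hβc.neg)
      (by
        intro s hs
        have hs' : s ∈ Ico T₁ T := ⟨hs.1.le, hs.2.trans ht.2⟩
        have hbc : ContinuousAt b s := hb.continuousAt (Ico_mem_nhds hs.1 hs'.2)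
        have hm : StronglyMeasurableAtFilter b (𝓝 s) volume :=
          (hb.mono Ioo_subset_Ico_self).stronglyMeasurableAtFilter isOpen_Ioo s ⟨hs.1, hs'.2⟩
        have h5 : HasDerivAt β (b s) s := by
          rw [hβ]
          exact intervalIntegral.integral_hasDerivAt_right (hbI s hs') hm hbc
        have h6 : HasDerivAt (fun τ => Real.exp (-β τ)) (Real.exp (-β s) * (-b s)) s := h5.neg.exp
        exact ((hder s hs').mul h6).hasDerivWithinAt)
      (by
        have h7 : ContinuousOn (fun s => C - e * G s) (Icc T₁ t) :=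
          continuousOn_const.sub (continuousOn_const.mul
            (hG.mono fun s hs => ⟨hs.1, hs.2.trans_lt ht.2⟩))
        exact h7.integrableOn_compact isCompact_Icc)
      (by
        intro s hs
        have hs' : s ∈ Ico T₁ T := ⟨hs.1.le, hs.2.trans ht.2⟩
        have h8 := hD s hs'
        obtain ⟨E, hE⟩ : ∃ E : ℝ, E = Real.exp (-β s) := ⟨_, rfl⟩
        have hE0 : 0 < E := by rw [hE]; exact Real.exp_pos _
        have hE1 : E ≤ 1 := by
          rw [hE, Real.exp_le_one_iff]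
          linarith [hβ0 s hs']
        have hE2 : e ≤ E := by
          rw [he, hE, Real.exp_le_exp]
          linarith [hβL s hs']
        rw [← hE]
        have h9 := mul_le_mul_of_nonneg_right h8 hE0.le
        have h10 : e * G s ≤ E * G s := mul_le_mul_of_nonneg_right hE2 (hG0 s hs')
        have h11 : C * E ≤ C * 1 := mul_le_mul_of_nonneg_left hE1 hC
        linarith)
    have h12 : β T₁ = 0 := by rw [hβ]; simp
    simp only [h12, neg_zero, Real.exp_zero, mul_one] at h4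
    exact h4
  obtain ⟨N, hN⟩ : ∃ N : ℝ, N = Y T₁ + C * (T - T₁) := ⟨_, rfl⟩
  have hN0 : 0 ≤ N := by
    rw [hN]
    have := hY0 T₁ ⟨le_rfl, hT⟩
    have h1 : 0 ≤ C * (T - T₁) := mul_nonneg hC (by linarith)
    linarith
  refine ⟨N / e, by positivity, fun t ht => ?_⟩
  have hGI : IntervalIntegrable G volume T₁ t := by
    rw [intervalIntegrable_iff_integrableOn_Icc_of_le ht.1]
    exact (hG.mono fun s hs => ⟨hs.1, hs.2.trans_lt ht.2⟩).integrableOn_compact isCompact_Icc
  have h1 := key t ht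
  rw [intervalIntegral.integral_sub (by simp) (hGI.const_mul e), intervalIntegral.integral_const,
    intervalIntegral.integral_const_mul, smul_eq_mul] at h1
  have h2 : 0 ≤ ∫ s in T₁..t, G s :=
    intervalIntegral.integral_nonneg ht.1 fun s hs => hG0 s ⟨hs.1, hs.2.trans_lt ht.2⟩
  have h3 : (t - T₁) * C ≤ (T - T₁) * C :=
    mul_le_mul_of_nonneg_right (by linarith [ht.2]) hC
  have h4 : Y t * e ≤ Y t * Real.exp (-β t) := by
    apply mul_le_mul_of_nonneg_left _ (hY0 t ht)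
    rw [he, Real.exp_le_exp]
    linarith [hβL t ht]
  have h5 : 0 ≤ Y t * e := mul_nonneg (hY0 t ht) he0.le
  have h6 : 0 ≤ e * ∫ s in T₁..t, G s := mul_nonneg he0.le h2
  rw [le_div_iff₀ he0, le_div_iff₀ he0]
  constructor
  · linarith
  · linarith

/-- Windows of a fixed length on which the integral is at most one. -/
lemma window {T₁ T N : ℝ} {g : ℝ → ℝ} (hN : 0 ≤ N) (hg : ContinuousOn g (Ico T₁ T))
    (hgN : ∀ t ∈ Ico T₁ T, ∫ s in T₁..t, g s ^ 2 ≤ N) :
    ∃ τ ∈ Ioc (0 : ℝ) 1, ∀ t' ∈ Ico T₁ T, ∫ s in (max T₁ (t' - τ))..t', g s ≤ 1 := by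
  refine ⟨1 / (N + 1), ⟨by positivity, ?_⟩, fun t' ht' => ?_⟩
  · rw [div_le_one (by positivity)]
    linarith
  obtain ⟨a, ha⟩ : ∃ a : ℝ, a = max T₁ (t' - 1 / (N + 1)) := ⟨_, rfl⟩
  rw [← ha]
  have hτ : 0 < 1 / (N + 1) := by positivity
  have ha1 : T₁ ≤ a := by rw [ha]; exact le_max_left _ _
  have ha2 : a ≤ t' := by rw [ha]; exact max_le ht'.1 (by linarith)
  have ha3 : t' - 1 / (N + 1) ≤ a := by rw [ha]; exact le_max_right _ _
  have hsub : ∀ s ∈ Icc a t', s ∈ Ico T₁ T := fun s hs => ⟨ha1.trans hs.1, hs.2.trans_lt ht'.2⟩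
  have hc1 : ContinuousOn g (uIcc a t') := by rw [uIcc_of_le ha2]; exact hg.mono hsub
  have hc2 : ContinuousOn (fun s => g s ^ 2) (uIcc a t') := hc1.pow 2
  have hc3 : ContinuousOn (fun s => g s ^ 2) (uIcc T₁ t') := by
    rw [uIcc_of_le ht'.1]
    exact (hg.mono fun s hs => ⟨hs.1, hs.2.trans_lt ht'.2⟩).pow 2
  have hc4 : ContinuousOn (fun s => g s ^ 2) (uIcc T₁ a) := by
    rw [uIcc_of_le ha1]
    exact (hg.mono fun s hs => ⟨hs.1, (hs.2.trans ha2).trans_lt ht'.2⟩).pow 2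
  have h1 : ∫ s in a..t', g s ^ 2 ≤ N := by
    have h2 := intervalIntegral.integral_add_adjacent_intervals (μ := volume)
      hc4.intervalIntegrable hc2.intervalIntegrable
    have h3 : 0 ≤ ∫ s in T₁..a, g s ^ 2 :=
      intervalIntegral.integral_nonneg ha1 fun s _ => sq_nonneg _
    have h4 := hgN t' ht'
    linarith
  have h5 : ∫ s in a..t', g s ≤ ∫ s in a..t', ((1 / (2 * (N + 1))) * g s ^ 2 + (N + 1) / 2) := by
    apply intervalIntegral.integral_mono_on ha2 hc1.intervalIntegrable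
    · exact ((hc2.intervalIntegrable).const_mul _).add (by simp)
    · intro s _
      have h6 : 0 ≤ (1 / (2 * (N + 1))) * (g s - (N + 1)) ^ 2 := by positivity
      have h7 : (1 / (2 * (N + 1))) * (g s - (N + 1)) ^ 2
          = (1 / (2 * (N + 1))) * g s ^ 2 + (N + 1) / 2 - g s := by
        field_simp
        ring
      linarith
  rw [intervalIntegral.integral_add ((hc2.intervalIntegrable).const_mul _) (by simp),
    intervalIntegral.integral_const_mul, intervalIntegral.integral_const, smul_eq_mul] at h5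
  have h8 : (1 / (2 * (N + 1))) * ∫ s in a..t', g s ^ 2 ≤ (1 / (2 * (N + 1))) * N :=
    mul_le_mul_of_nonneg_left h1 (by positivity)
  have h9 : (1 / (2 * (N + 1))) * N ≤ 1 / 2 := by
    rw [div_mul_eq_mul_div, div_le_div_iff₀ (by positivity) (by norm_num)]
    linarith
  have h10 : (t' - a) * ((N + 1) / 2) ≤ (1 / (N + 1)) * ((N + 1) / 2) :=
    mul_le_mul_of_nonneg_right (by linarith) (by positivity)
  have h11 : (1 / (N + 1)) * ((N + 1) / 2) = 1 / 2 := by field_simp
  linarith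

end Pool.Agent.Q177.AXI
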