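import Pool.Agent.Q67.AXI.Defs4
import Pool.Agent.Q65.AXI.LogP

/-!
Project AXQ (helper67), job AXQ-5 (StmLogQ): the bound of the circulation, following the proof of
AXP-4 (helper65).
-/

set_option autoImplicit false

open MeasureTheory Set Metric Filter Topology
open scoped ContDiff
open H459R3.NS Pool.Agent.W268.NS Pool.Agent.Q67.VD

namespace Pool.Agent.Q177.AXI

open Pool.Agent.Q85.CC Pool.Agent.Q85.CL Pool.Agent.TH305.AX Pool.Agent.Q67.AXI
open Pool.Agent.Q65.AXI

/-- AXQ-5. -/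
theorem t_LogQ (hAlg : StmAlg) (_hJnt : StmJnt) (hBar : StmBar) : StmLogQ := by
  intro T E c R H r h T₁ K c₁ θ u p B α α' δ hA hr hrR hr1 hh0 hhH hT₁ hT₁T hW hBc hBi hα' hαα hδ
    hc₁ hcθ hcond
  have hr2 : r ^ 2 < 1 := pow_lt_one₀ hr.le hr1 (by norm_num)
  have hr20 : 0 < r ^ 2 := by positivity
  have hT₁I : T₁ ∈ Ioo 0 T := ⟨hT₁, hT₁T⟩
  obtain ⟨C₀, hC₀, hbd⟩ := circ_bd hAlg hBar T E c R H r h T₁ K u p hA hr hrR hh0 hhH hT₁ hT₁T hW
  -- the initial bound
  have hsm1 := sliceU hA.smooth_u hT₁I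
  have hWc : Continuous (WW (u T₁)) := ((hAlg (u T₁) hsm1 (hA.axi T₁ hT₁I)).1.2.1).continuous
  obtain ⟨K₁, hK₁⟩ : ∃ K₁ : ℝ, ∀ x ∈ Cy c r h, |WW (u T₁) x| ≤ K₁ := by
    obtain ⟨K₁, hK₁⟩ := (cyCompact c r h).exists_bound_of_continuousOn (f := WW (u T₁)) hWc.continuousOn
    exact ⟨K₁, hK₁⟩
  have hcW : ∀ t ∈ Ioo 0 T, ∀ x : V, circ (u t) x = sg x * WW (u t) x := by
    intro t ht x
    exact ((hAlg (u t) (sliceU hA.smooth_u ht) (hA.axi t ht)).2.2.2 x).2.2.2.2.2.2.2.2.1
  set b := tailI B T with hb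
  have hb0 : ∀ t ∈ Ico T₁ T, 0 ≤ b t := fun t ht => tailI_nonneg B T t ht.2.le
  have hbm : ∀ t ∈ Ico T₁ T, b t ≤ b T₁ := fun t ht => tailI_anti B T hBi T₁ t hT₁.le ht.1 ht.2.le
  have hbd' : ∀ t ∈ Ioo 0 T, HasDerivAt b (-|B t|) t := fun t ht => tailI_deriv B T hBi hBc t ht
  have hbT₁ : 0 ≤ b T₁ := hb0 T₁ ⟨le_rfl, hT₁T⟩
  -- the shift
  set m : ℝ → ℝ := fun t => 2 * c₁ * Real.log (T - t) + 2 * b t with hm
  set m' : ℝ → ℝ := fun t => -(2 * (c₁ / (T - t) + |B t|)) with hm'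
  have hmd : ∀ t ∈ Ioo 0 T, HasDerivAt m (m' t) t := by
    intro t ht
    have h0 : T - t ≠ 0 := by have := ht.2; linarith
    have h1 : HasDerivAt (fun τ => T - τ) (-1) t := (hasDerivAt_id t).const_sub T
    have h2 := (h1.log h0).const_mul (2 * c₁)
    have h3 := h2.add ((hbd' t ht).const_mul 2)
    refine h3.congr_deriv ?_
    rw [hm']
    ring
  have hmc : ContinuousOn m (Ico T₁ T) := fun t ht =>
    (hmd t ⟨hT₁.trans_le ht.1, ht.2⟩).continuousAt.continuousWithinAt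
  set m₁ := 2 * c₁ * |Real.log (T - T₁)| + 2 * b T₁ with hm₁
  have hm₁0 : 0 ≤ m₁ := by positivity
  have hmle : ∀ t ∈ Ico T₁ T, m t ≤ m₁ := by
    intro t ht
    have h1 : Real.log (T - t) ≤ |Real.log (T - T₁)| := by
      refine (Real.log_le_log (by linarith [ht.2]) ?_).trans (le_abs_self _)
      linarith [ht.1]
    have h2 := hbm t ht
    have h3 : 2 * c₁ * Real.log (T - t) ≤ 2 * c₁ * |Real.log (T - T₁)| := mul_le_mul_of_nonneg_left h1 (by linarith)
    rw [hm, hm₁]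
    show 2 * c₁ * Real.log (T - t) + 2 * b t ≤ _
    linarith
  set K₂ := (2 * α' + (m₁ + 1)) ^ α' with hK₂
  have hK₂0 : 0 < K₂ := Real.rpow_pos_of_pos (by positivity) _
  set Y := 2 + 4 * b T₁ with hY
  have hY0 : 0 < Y := by linarith
  set CC := |K| * K₂ + |K₁| * K₂ + C₀ * Y ^ α' + 1 with hCC
  have p1 : 0 ≤ |K| * K₂ := by positivity
  have p2 : 0 ≤ |K₁| * K₂ := by positivity
  have p4 : 0 ≤ C₀ * Y ^ α' := by positivity
  have hC1 : |K| * K₂ ≤ CC := by linarith
  have hC2 : |K₁| * K₂ ≤ CC := by linarith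
  have hC4 : C₀ * Y ^ α' ≤ CC := by linarith
  have hC0 : 0 < CC := by linarith
  have hpos : ∀ t s : ℝ, 0 < hh α' (-Real.log s + m t) := fun t s => hh_pos _ _
  have hsle : ∀ t ∈ Ico T₁ T, ∀ s ∈ Ioc 0 (r ^ 2), s ≤ K₂ * √s * hh α' (-Real.log s + m t) := by
    intro t ht s hs
    have h1 := Real.log_neg hs.1 (lt_of_le_of_lt hs.2 hr2)
    have h2 := hmle t ht
    refine le_log_rpow α' (m₁ + 1) hα' (by linarith) s _ hs.1 (lt_of_le_of_lt hs.2 hr2) (sp_pos _) ?_
    have h3 : sp (-Real.log s + m t) ≤ sp (-Real.log s + m₁) := sp_mono (by linarith)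
    have h4 := sp_le (-Real.log s + m₁) (by linarith)
    linarith
  have hsle1 : ∀ t ∈ Ico T₁ T, ∀ s ∈ Ioc 0 (r ^ 2), s ≤ K₂ * hh α' (-Real.log s + m t) := by
    intro t ht s hs
    refine (hsle t ht s hs).trans ?_
    apply mul_le_mul_of_nonneg_right _ (hpos t s).le
    have : √s ≤ 1 := Real.sqrt_le_one.2 (hs.2.trans hr2.le)
    nlinarith
  have hmain := hBar T E c R H r h T₁ T u p (fun t s => δ + kp CC α' m t s) (kpT CC α' m m') (kpS CC α' m)
    (kpSS CC α' m) hA hr hrR hh0 hhH hT₁ hT₁T le_rfl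
    (continuousOn_const.add (kp_cont CC α' m (Ico T₁ T) (r ^ 2) hmc)) ?_ ?_ ?_ ?_ ?_ ?_ ?_
  · have hθ0 : 0 < θ := by linarith
    have hρ : 0 < 1 - 2 * c₁ / θ := by
      have : 2 * c₁ / θ < 1 := by rw [div_lt_one hθ0]; exact hcθ
      linarith
    refine ⟨CC * (1 - 2 * c₁ / θ) ^ (-α'), C₀, by positivity, hC₀.le, ?_⟩
    intro t ht x hx
    refine ⟨hbd t ht x hx, ?_⟩
    intro hs hsθ
    refine (hmain t ht x hx hs).trans ?_
    refine add_le_add le_rfl ?_
    unfold kp hh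
    have hTt : 0 < T - t := by linarith [ht.2]
    have h1 := Real.log_neg hs (lt_of_le_of_lt hx.1 hr2)
    rw [abs_of_neg h1]
    have h2 := hb0 t ht
    have h3 : Real.log (sg x) ≤ θ * Real.log (T - t) := by
      rw [← Real.log_rpow hTt]
      exact Real.log_le_log hs hsθ
    have h4 : (1 - 2 * c₁ / θ) * (-Real.log (sg x)) ≤ -Real.log (sg x) + m t := by
      have h5 : 2 * c₁ / θ * Real.log (sg x) ≤ 2 * c₁ * Real.log (T - t) := by
        rw [div_mul_eq_mul_div, div_le_iff₀ hθ0]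
        nlinarith [mul_le_mul_of_nonneg_left h3 (show 0 ≤ 2 * c₁ by linarith)]
      show _ ≤ -Real.log (sg x) + (2 * c₁ * Real.log (T - t) + 2 * b t)
      nlinarith
    have hx1 : 0 < -Real.log (sg x) := by linarith
    have h6 : (1 - 2 * c₁ / θ) * (-Real.log (sg x)) ≤ sp (-Real.log (sg x) + m t) := h4.trans (le_sp _)
    have h7 : sp (-Real.log (sg x) + m t) ^ (-α') ≤ ((1 - 2 * c₁ / θ) * (-Real.log (sg x))) ^ (-α') :=
      Real.rpow_le_rpow_of_nonpos (by positivity) h6 (by linarith)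
    rw [Real.mul_rpow hρ.le hx1.le] at h7
    have h8 := mul_le_mul_of_nonneg_left h7 hC0.le
    rw [← mul_assoc] at h8
    exact h8
  · intro t ht s hs
    exact ⟨(kp_dt CC α' m m' t s (hmd t ⟨hT₁.trans ht.1, ht.2⟩)).const_add δ,
      (kp_ds CC α' m t s hs.1).const_add δ, kp_dss CC α' m t s hs.1⟩
  · intro t _
    exact contDiffOn_const.add (kp_smooth CC α' m t (r ^ 2))
  · intro t _ s _
    exact add_nonneg hδ (mul_pos hC0 (hpos t s)).le
  · -- near the axis
    intro T' hT' A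
    refine ⟨(CC / (|A| * K₂ + 1)) ^ 2, by positivity, ?_⟩
    intro t ht s hs hsδ
    have ht' : t ∈ Ico T₁ T := ⟨ht.1, lt_of_le_of_lt ht.2 hT'.2⟩
    have h1 := hsle t ht' s hs
    have h2 : √s ≤ CC / (|A| * K₂ + 1) := Real.sqrt_le_iff.2 ⟨by positivity, hsδ.le⟩
    rw [le_div_iff₀ (by positivity)] at h2
    have h3 := hpos t s
    have h4 : A * s ≤ |A| * (K₂ * √s * hh α' (-Real.log s + m t)) :=
      (mul_le_mul_of_nonneg_right (le_abs_self A) hs.1.le).trans (mul_le_mul_of_nonneg_left h1 (abs_nonneg A))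
    show A * s ≤ δ + kp CC α' m t s
    unfold kp
    have h5 : |A| * K₂ * √s ≤ CC := by
      have := Real.sqrt_nonneg s
      nlinarith
    have h6 := mul_le_mul_of_nonneg_right h5 h3.le
    nlinarith
  · -- the lateral boundary
    intro t ht x hx hs hb
    have ht' : t ∈ Ioo 0 T := ⟨hT₁.trans_le ht.1, ht.2⟩
    have hs' : sg x ∈ Ioc 0 (r ^ 2) := ⟨hs, hx.1⟩
    rw [hcW t ht' x, abs_mul, abs_of_pos hs]
    have h1 := (hW t ht x hx hb).trans (le_abs_self K)
    have h2 := hsle1 t ht _ hs'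
    have h3 := hpos t (sg x)
    refine le_trans ?_ (le_add_of_nonneg_left hδ)
    unfold kp
    calc sg x * |WW (u t) x| ≤ (K₂ * hh α' (-Real.log (sg x) + m t)) * |K| :=
          mul_le_mul h2 h1 (abs_nonneg _) (by positivity)
      _ = |K| * K₂ * hh α' (-Real.log (sg x) + m t) := by ring
      _ ≤ CC * hh α' (-Real.log (sg x) + m t) := mul_le_mul_of_nonneg_right hC1 h3.le
  · -- the initial time
    intro x hx hs
    have ht : T₁ ∈ Ico T₁ T := ⟨le_rfl, hT₁T⟩
    have hs' : sg x ∈ Ioc 0 (r ^ 2) := ⟨hs, hx.1⟩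
    rw [hcW T₁ hT₁I x, abs_mul, abs_of_pos hs]
    have h1 := (hK₁ x hx).trans (le_abs_self K₁)
    have h2 := hsle1 T₁ ht _ hs'
    have h3 := hpos T₁ (sg x)
    refine le_trans ?_ (le_add_of_nonneg_left hδ)
    unfold kp
    calc sg x * |WW (u T₁) x| ≤ (K₂ * hh α' (-Real.log (sg x) + m T₁)) * |K₁| :=
          mul_le_mul h2 h1 (abs_nonneg _) (by positivity)
      _ = |K₁| * K₂ * hh α' (-Real.log (sg x) + m T₁) := by ring
      _ ≤ CC * hh α' (-Real.log (sg x) + m T₁) := mul_le_mul_of_nonneg_right hC2 h3.le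
  · -- touching points
    intro t ht x hx hs σ hσ hk h2 h0 h1
    have ht' : t ∈ Ico T₁ T := ⟨ht.1.le, ht.2⟩
    have htI : t ∈ Ioo 0 T := ⟨hT₁.trans ht.1, ht.2⟩
    have hTt : 0 < T - t := by linarith [ht.2]
    have hkk : δ + kp CC α' m t (sg x) < σ * circ (u t) x := hk
    have hsr : sg x < r ^ 2 := hx.1
    have hs1 : sg x < 1 := hsr.trans hr2
    have hxC : x ∈ Cy c r h := ⟨hx.1.le, hx.2.le⟩
    obtain ⟨d0, d1, d2, d3⟩ := ((hAlg (u t) (sliceU hA.smooth_u htI) (hA.axi t htI)).2.2.2 x).2.2.2.2.2.2.2.2.2.2.1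
    have hkS : 0 < kpS CC α' m t (sg x) := by
      unfold kpS
      have := hh1_pos α' (-Real.log (sg x) + m t) hα'
      positivity
    have hk0 : 0 < kp CC α' m t (sg x) := mul_pos hC0 (hpos t (sg x))
    have hvort : vort (u t) x 2 = σ * (2 * kpS CC α' m t (sg x)) := by
      rw [d0] at h0
      rw [d1] at h1
      have hor : x 0 ≠ 0 ∨ x 1 ≠ 0 := by
        by_contra hc
        push Not at hc
        have : sg x = 0 := by unfold sg; rw [hc.1, hc.2]; ring
        linarith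
      rcases hor with hx0 | hx1
      · apply mul_left_cancel₀ hx0
        rw [h0]; ring
      · apply mul_left_cancel₀ hx1
        rw [h1]; ring
    have habs : σ * circ (u t) x ≤ |circ (u t) x| := by
      rcases hσ with rfl | rfl
      · rw [one_mul]; exact le_abs_self _
      · rw [neg_one_mul]; exact neg_le_abs _
    -- the logarithm is large
    set L := -Real.log (sg x) + m t with hL
    have hspY : Y < sp L := by
      by_contra hc
      push Not at hc
      have h5 : Y ^ (-α') ≤ sp L ^ (-α') := Real.rpow_le_rpow_of_nonpos (sp_pos _) hc (by linarith)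
      have h6 : C₀ ≤ CC * Y ^ (-α') := by
        have h7 : Y ^ α' * Y ^ (-α') = 1 := by
          rw [← Real.rpow_add hY0, add_neg_cancel, Real.rpow_zero]
        have h8 : 0 < Y ^ (-α') := Real.rpow_pos_of_pos hY0 _
        calc C₀ = C₀ * Y ^ α' * Y ^ (-α') := by rw [mul_assoc, h7, mul_one]
          _ ≤ CC * Y ^ (-α') := mul_le_mul_of_nonneg_right hC4 h8.le
      have h9 : CC * Y ^ (-α') ≤ CC * sp L ^ (-α') := mul_le_mul_of_nonneg_left h5 hC0.le
      have h10 : kp CC α' m t (sg x) = CC * sp L ^ (-α') := rfl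
      have h11 := hbd t ht' x hxC
      rw [h10] at hkk
      linarith
    have hLY : Y - 1 < L := by
      have h5 := sp_le' L
      rcases le_total L 0 with h6 | h6
      · rw [max_eq_right h6] at h5
        linarith
      · rw [max_eq_left h6] at h5
        linarith
    set lm := lam T c₁ t x with hlm
    have hlmL : lm = L - 2 * b t := by
      rw [hlm, hL, hm]
      unfold lam
      rw [Real.log_div (Real.rpow_pos_of_pos hTt _).ne' hs.ne', Real.log_rpow hTt]
      ring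
    have hbt0 := hb0 t ht'
    have hbt1 := hbm t ht'
    have hlm1 : 1 + 2 * b T₁ < lm := by rw [hlmL]; linarith
    have hlm0 : 0 < lm := by linarith
    have hlmle : lm ≤ L := by rw [hlmL]; linarith
    have hsp2 : sp L ≤ 2 * lm := by
      have h5 := sp_le L (by linarith)
      have : L = lm + 2 * b t := by rw [hlmL]; ring
      linarith
    have hsgT : sg x < (T - t) ^ (2 * c₁) := by
      have h5 : 0 < Real.log ((T - t) ^ (2 * c₁) / sg x) := hlm0
      have h6 : 0 < (T - t) ^ (2 * c₁) / sg x := div_pos (Real.rpow_pos_of_pos hTt _) hs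
      rw [Real.log_pos_iff h6.le, one_lt_div hs] at h5
      exact h5
    have hrd := hcond t ht x hx hs hsgT
      (by linarith)
      (by rw [d3]; rw [d2] at h2; linarith)
      (by
        rw [hvort]
        have : circ (u t) x * (σ * (2 * kpS CC α' m t (sg x))) = 2 * (σ * circ (u t) x) * kpS CC α' m t (sg x) := by ring
        rw [this]
        have : 0 < σ * circ (u t) x := by linarith
        positivity)
    refine kp_ineq CC α' α m m' t (sg x) (c₁ / (T - t) + |B t|) (c₁ / (T - t) + B t) (rad (u t) x) lm hC0 hα' hαα hs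
      rfl ?_ hlm0 hlmle hrd
    have := le_abs_self (B t)
    linarith

end Pool.Agent.Q177.AXI
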