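import Pool.Agent.Q67.AXI.Defs2
import Pool.Agent.Q285.AXI.Fin
import Pool.Agent.Q177.AXI.Int

/-!
# Project AXW (helper67), job AXW-4 (U): bounds of `UU` with weight
-/

set_option autoImplicit false

open MeasureTheory Set Metric Filter Topology
open scoped ContDiff

namespace Pool.Agent.Q177.AXI

open H459R3.NS Pool.Agent.W268.NS Pool.Agent.Q67.VD
open Pool.Agent.Q85.CC Pool.Agent.Q85.CL Pool.Agent.TH305.AX Pool.Agent.Q67.AXI
open Pool.Agent.Q285.AXI (cy_int)

/-- Integration by parts in the vertical direction; the weight is constant in this direction. -/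
lemma wt_ibp {γ : ℝ} (hγ : 0 < γ) {f : V → ℝ} (hf : ContDiff ℝ ∞ f) (hc : HasCompactSupport f) :
    ∫ x, wt γ x * pd 2 f x = 0 := by
  have h := integral_bilinear_hasLineDerivAt_right_eq_neg_left_of_integrable (μ := volume)
    (f := fun x : V => wt γ x) (f' := fun _ => (0 : ℝ)) (g := f) (g' := pd 2 f)
    (v := (Pi.single 2 1 : V)) (B := ContinuousLinearMap.mul ℝ ℝ)
    (by simp) (wt_int hγ (pd_cont hf 2) (pd_supp hc 2)) (wt_int hγ hf.continuous hc)
    (by
      intro x _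
      have h1 : (fun t : ℝ => wt γ (x + t • (Pi.single 2 1 : V))) = fun _ => wt γ x := by
        funext t
        unfold wt sg
        simp
      show HasDerivAt (fun t : ℝ => wt γ (x + t • (Pi.single 2 1 : V))) 0 0
      rw [h1]
      exact hasDerivAt_const _ _)
    (by
      intro x _
      exact (hf.differentiable (by simp) x).hasFDerivAt.hasLineDerivAt _)
  simpa using h

lemma norm_Co' {c r h : ℝ} (hr : 0 ≤ r) {x : V} (hx : x ∈ Co c r h) :
    ‖x - ![0, 0, c]‖ ≤ max r h := by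
  obtain ⟨h1, h2⟩ := hx
  obtain ⟨a1, a2⟩ := abs_le_sqrt_sg x
  have h3 : √(sg x) ≤ r := by
    rw [← Real.sqrt_sq hr]
    exact Real.sqrt_le_sqrt h1.le
  rw [pi_norm_le_iff_of_nonneg (hr.trans (le_max_left _ _))]
  intro i
  fin_cases i
  · show |x 0 - 0| ≤ _
    rw [sub_zero]
    exact (a1.trans h3).trans (le_max_left _ _)
  · show |x 1 - 0| ≤ _
    rw [sub_zero]
    exact (a2.trans h3).trans (le_max_left _ _)
  · exact h2.le.trans (le_max_right _ _)

/-- The product rule for `LL`. -/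
lemma LL_mul {f g : V → ℝ} (hf : ContDiff ℝ ∞ f) (hg : ContDiff ℝ ∞ g) (x : V) :
    LL (fun y => f y * g y) x = f x * LL g x + g x * LL f x + 2 * ∑ j, pd j f x * pd j g x := by
  have hl : lap (fun y => f y * g y) x
      = f x * lap g x + g x * lap f x + 2 * ∑ j, pd j f x * pd j g x := by
    unfold lap
    rw [Finset.mul_sum, Finset.mul_sum, Finset.mul_sum, ← Finset.sum_add_distrib,
      ← Finset.sum_add_distrib]
    refine Finset.sum_congr rfl fun j _ => ?_
    have sf := Pool.Agent.W583.MD.sm_pd hf j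
    have sg' := Pool.Agent.W583.MD.sm_pd hg j
    rw [pd_mulf hf hg, Pool.Agent.TH305.DR.pd_add' (hf.mul sg') (sf.mul hg), pd_mulf hf sg',
      pd_mulf sf hg]
    ring
  unfold LL RR
  rw [hl, pd_mulf hf hg, pd_mulf hf hg]
  ring

/-- The cut-off function is locally constant, or the point is in the outer region. -/
lemma cut_dich {c r h r1 h1 K : ℝ} {φ : V → ℝ} (hr1 : 0 < r1) (hh1 : 0 < h1)
    (hφ : Cut c r h r1 h1 K φ) (x : V) :
    x ∈ Out c r h r1 h1 ∨ ((∀ i, pd i φ x = 0) ∧ lap φ x = 0) := by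
  by_cases hx : x ∈ tsupport φ
  · have hx1 := hφ.supp hx
    by_cases hx2 : x ∈ Cy c r1 h1
    · right
      have e1 : ∀ y ∈ Cy c r1 h1, ∀ i, pd i φ y = 0 := by
        intro y hy i
        rw [pd_eq_Cy hr1 hh1 hφ.sm (contDiff_const (c := (1 : ℝ)))
          (fun z hz => hφ.one z ⟨hz.1.le, hz.2.le⟩) hy i]
        unfold pd
        simp
      refine ⟨e1 x hx2, ?_⟩
      unfold lap
      refine Finset.sum_eq_zero fun i _ => ?_
      rw [pd_eq_Cy hr1 hh1 (Pool.Agent.W583.MD.sm_pd hφ.sm i) (contDiff_const (c := (0 : ℝ)))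
        (fun z hz => e1 z ⟨hz.1.le, hz.2.le⟩ i) hx2 i]
      unfold pd
      simp
    · left
      refine ⟨⟨hx1.1.le, hx1.2.le⟩, ?_⟩
      by_contra hcon
      push Not at hcon
      exact hx2 ⟨hcon.1.le, hcon.2.le⟩
  · right
    have e1 : ∀ y, y ∉ tsupport φ → ∀ i, pd i φ y = 0 := by
      intro y hy i
      have := (notMem_tsupport_iff_eventuallyEq.1 hy).fderiv_eq (𝕜 := ℝ)
      unfold pd
      rw [this]
      simp
    refine ⟨e1 x hx, ?_⟩
    unfold lap
    refine Finset.sum_eq_zero fun i _ => ?_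
    have h2 : pd i φ =ᶠ[𝓝 x] 0 := by
      filter_upwards [(isClosed_tsupport φ).isOpen_compl.mem_nhds hx] with y hy
      exact e1 y hy i
    have h3 := h2.fderiv_eq (𝕜 := ℝ)
    show fderiv ℝ (pd i φ) x _ = 0
    rw [h3]
    simp

/-- The equation of `φ U`. -/
lemma LL_cut {c r h r1 h1 K : ℝ} {φ : V → ℝ} {v : V → V} (hK : 0 ≤ K) (hr1 : 0 < r1) (hh1 : 0 < h1)
    (hφ : Cut c r h r1 h1 K φ) (hUs : ContDiff ℝ ∞ (UU v)) (hOs : ContDiff ℝ ∞ (OO v))
    (hout : ∀ x ∈ Out c r h r1 h1, BdA K v x)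
    (hLL : ∀ x ∈ Co c r h, sg x ≠ 0 → LL (UU v) x = pd 2 (OO v) x) {x : V} (hx : sg x ≠ 0) :
    |LL (fun y => φ y * UU v y) x - pd 2 (fun y => φ y * OO v y) x|
      ≤ (Cy c r h).indicator (fun _ => 10 * K ^ 2) x ∧
    |(φ x * UU v x) * (LL (fun y => φ y * UU v y) x - pd 2 (fun y => φ y * OO v y) x)|
      ≤ (Cy c r h).indicator (fun _ => 10 * K ^ 3) x := by
  have hs : 0 < sg x := (sg_nonneg x).lt_of_ne' hx
  have e0 : φ x * LL (UU v) x = φ x * pd 2 (OO v) x := by
    by_cases hc : x ∈ Co c r h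
    · rw [hLL x hc hx]
    · have : φ x = 0 := by
        by_contra hcon
        exact hc (hφ.supp (subset_tsupport φ hcon))
      rw [this, zero_mul, zero_mul]
  have e1 : LL (fun y => φ y * UU v y) x - pd 2 (fun y => φ y * OO v y) x
      = UU v x * LL φ x + 2 * ∑ j, pd j φ x * pd j (UU v) x - pd 2 φ x * OO v x := by
    rw [LL_mul hφ.sm hUs, pd_mulf hφ.sm hOs, e0]
    ring
  rw [e1]
  have n1 : 0 ≤ (Cy c r h).indicator (fun _ => 10 * K ^ 2) x :=
    indicator_nonneg (fun _ _ => by positivity) x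
  have n2 : 0 ≤ (Cy c r h).indicator (fun _ => 10 * K ^ 3) x :=
    indicator_nonneg (fun _ _ => by positivity) x
  rcases cut_dich hr1 hh1 hφ x with ho | ⟨z1, z2⟩
  · obtain ⟨-, b1, b2, b3, b4, b5⟩ := hout x ho
    obtain ⟨c1, c2, c3⟩ := hφ.bd x
    rw [indicator_of_mem ho.1, indicator_of_mem ho.1]
    have k1 : |LL φ x| ≤ 3 * K := by
      unfold LL
      have h1 : |2 / sg x * RR φ x| ≤ 2 * K := by
        rw [abs_mul, abs_of_pos (by positivity)]
        calc 2 / sg x * |RR φ x| ≤ 2 / sg x * (K * sg x) :=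
              mul_le_mul_of_nonneg_left c3 (by positivity)
          _ = 2 * K := by field_simp
      calc |lap φ x + 2 / sg x * RR φ x| ≤ |lap φ x| + |2 / sg x * RR φ x| := abs_add_le _ _
        _ ≤ 3 * K := by linarith
    have k2 : |UU v x * LL φ x| ≤ K * (3 * K) := by
      rw [abs_mul]
      exact mul_le_mul b1 k1 (abs_nonneg _) hK
    have k3 : ∀ j, |pd j φ x * pd j (UU v) x| ≤ K * K := by
      intro j
      rw [abs_mul]
      exact mul_le_mul (c1 j) (b5 j).1 (abs_nonneg _) hK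
    have k4 : |∑ j, pd j φ x * pd j (UU v) x| ≤ 3 * (K * K) := by
      refine (Finset.abs_sum_le_sum_abs _ _).trans ?_
      refine (Finset.sum_le_sum fun j _ => k3 j).trans ?_
      simp
    have k5 : |pd 2 φ x * OO v x| ≤ K * K := by
      rw [abs_mul]
      exact mul_le_mul (c1 2) b4 (abs_nonneg _) hK
    have k6 : |UU v x * LL φ x + 2 * ∑ j, pd j φ x * pd j (UU v) x - pd 2 φ x * OO v x|
        ≤ 10 * K ^ 2 := by
      have a1 := abs_le.1 k2
      have a2 := abs_le.1 k4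
      have a3 := abs_le.1 k5
      rw [abs_le]
      constructor
      · nlinarith
      · nlinarith
    refine ⟨k6, ?_⟩
    have k7 : |φ x * UU v x| ≤ K := by
      rw [abs_mul, abs_of_nonneg (hφ.nn x)]
      calc φ x * |UU v x| ≤ 1 * |UU v x| := mul_le_mul_of_nonneg_right (hφ.le x) (abs_nonneg _)
        _ ≤ K := by linarith
    rw [abs_mul]
    calc _ ≤ K * (10 * K ^ 2) := mul_le_mul k7 k6 (abs_nonneg _) hK
      _ = 10 * K ^ 3 := by ring
  · have z3 : LL φ x = 0 := by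
      unfold LL RR
      rw [z2, z1, z1]
      ring
    have z4 : UU v x * LL φ x + 2 * ∑ j, pd j φ x * pd j (UU v) x - pd 2 φ x * OO v x = 0 := by
      rw [z3, z1]
      simp [z1]
    rw [z4, mul_zero, abs_zero]
    exact ⟨n1, n2⟩

/-- The first estimate. -/
lemma est_a {γ : ℝ} (hγ : 0 < γ) {c r h K : ℝ} (hr : 0 ≤ r) {F G : V → ℝ}
    (hG : ContDiff ℝ ∞ G) (hGc : HasCompactSupport G)
    (hd : ∀ x, sg x ≠ 0 → |LL F x - pd 2 G x| ≤ (Cy c r h).indicator (fun _ => 10 * K ^ 2) x) :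
    ∫ x, wt γ x * LL F x ^ 2 ≤ 2 * GW γ G + 200 * K ^ 4 * ∫ x in Cy c r h, wt γ x := by
  have i0 : IntegrableOn (fun x => wt γ x) (Cy c r h) := cy_int (wt_cont hγ) c r h hr
  have i1 : Integrable ((Cy c r h).indicator fun x => wt γ x) :=
    i0.integrable_indicator (isClosed_Cy c r h).measurableSet
  have i2 : Integrable (fun x : V => wt γ x * gr2 G x) := wt_int hγ (gr2_cont hG) (gr2_supp hGc)
  have h1 : ∫ x, wt γ x * LL F x ^ 2 ≤ ∫ x, (2 * (wt γ x * gr2 G x)
      + 200 * K ^ 4 * (Cy c r h).indicator (fun x => wt γ x) x) := by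
    apply integral_mono_of_nonneg
    · exact Eventually.of_forall fun x => mul_nonneg (wt_nonneg γ x) (sq_nonneg _)
    · exact (i2.const_mul 2).add (i1.const_mul _)
    · filter_upwards [ae_crd 0] with x hx0
      have hx : sg x ≠ 0 := by
        have := sq_pos_of_ne_zero hx0
        unfold sg
        nlinarith [sq_nonneg (x 1)]
      have h2 := hd x hx
      have hw := wt_nonneg γ x
      have h3 : pd 2 G x ^ 2 ≤ gr2 G x :=
        Finset.single_le_sum (f := fun i => pd i G x ^ 2) (fun i _ => sq_nonneg _)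
          (Finset.mem_univ 2)
      have h4 : LL F x ^ 2 ≤ 2 * pd 2 G x ^ 2 + 2 * (LL F x - pd 2 G x) ^ 2 := by
        nlinarith [sq_nonneg (LL F x - 2 * pd 2 G x)]
      have h5 : wt γ x * (LL F x - pd 2 G x) ^ 2
          ≤ 100 * K ^ 4 * (Cy c r h).indicator (fun x => wt γ x) x := by
        by_cases hc : x ∈ Cy c r h
        · rw [indicator_of_mem hc] at h2 ⊢
          have h6 : (LL F x - pd 2 G x) ^ 2 ≤ (10 * K ^ 2) ^ 2 := by
            rw [← sq_abs]
            exact pow_le_pow_left₀ (abs_nonneg _) h2 2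
          calc wt γ x * (LL F x - pd 2 G x) ^ 2 ≤ wt γ x * (10 * K ^ 2) ^ 2 :=
                mul_le_mul_of_nonneg_left h6 hw
            _ = 100 * K ^ 4 * wt γ x := by ring
        · rw [indicator_of_notMem hc] at h2 ⊢
          have h6 : LL F x - pd 2 G x = 0 := abs_nonpos_iff.1 h2
          rw [h6]
          simp
      have h7 := mul_le_mul_of_nonneg_left h4 hw
      have h8 := mul_le_mul_of_nonneg_left h3 hw
      linarith
  rw [integral_add (i2.const_mul 2) (i1.const_mul _), integral_const_mul, integral_const_mul,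
    integral_indicator (isClosed_Cy c r h).measurableSet] at h1
  exact h1

/-- The second estimate. -/
lemma est_b {γ : ℝ} (hγ : 0 < γ) {c r h K : ℝ} (hK : 0 ≤ K) (hr : 0 ≤ r) {F G : V → ℝ}
    (hF : ContDiff ℝ ∞ F) (hFc : HasCompactSupport F)
    (hG : ContDiff ℝ ∞ G) (hGc : HasCompactSupport G)
    (hd : ∀ x, sg x ≠ 0 →
      |F x * (LL F x - pd 2 G x)| ≤ (Cy c r h).indicator (fun _ => 10 * K ^ 3) x) :
    -∫ x, wt γ x * (F x * LL F x) ≤ 1 / 2 * GW γ F + 1 / 2 * (∫ x, wt γ x * G x ^ 2)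
      + 10 * K ^ 3 * ∫ x in Cy c r h, wt γ x := by
  have i0 : IntegrableOn (fun x => wt γ x) (Cy c r h) := cy_int (wt_cont hγ) c r h hr
  have i1 : Integrable ((Cy c r h).indicator fun x => wt γ x) :=
    i0.integrable_indicator (isClosed_Cy c r h).measurableSet
  have i2 : Integrable (fun x : V => wt γ x * gr2 F x) := wt_int hγ (gr2_cont hF) (gr2_supp hFc)
  have i3 : Integrable (fun x : V => wt γ x * G x ^ 2) := wt_int hγ (hG.continuous.pow 2) (by
    have h1 : (fun x : V => G x ^ 2) = fun x => G x * G x := by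
      funext x
      ring
    rw [h1]
    exact hGc.mul_right)
  have i4 : Integrable (fun x : V => wt γ x * pd 2 (fun y => F y * G y) x) :=
    wt_int hγ (pd_cont (hF.mul hG) 2) (pd_supp hFc.mul_right 2)
  have n1 : 0 ≤ GW γ F := integral_nonneg fun x => mul_nonneg (wt_nonneg γ x) (gr2_nonneg F x)
  have n2 : 0 ≤ ∫ x, wt γ x * G x ^ 2 :=
    integral_nonneg fun x => mul_nonneg (wt_nonneg γ x) (sq_nonneg _)
  have n3 : 0 ≤ ∫ x in Cy c r h, wt γ x := integral_nonneg fun x => wt_nonneg γ x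
  by_cases hi : Integrable (fun x : V => wt γ x * (F x * LL F x))
  · have h1 : -∫ x, wt γ x * (F x * LL F x) ≤ ∫ x, (1 / 2 * (wt γ x * gr2 F x)
        + 1 / 2 * (wt γ x * G x ^ 2) + 10 * K ^ 3 * (Cy c r h).indicator (fun x => wt γ x) x
        - wt γ x * pd 2 (fun y => F y * G y) x) := by
      rw [← integral_neg]
      apply integral_mono_ae hi.neg
      · exact (((i2.const_mul _).add (i3.const_mul _)).add (i1.const_mul _)).sub i4
      · filter_upwards [ae_crd 0] with x hx0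
        have hx : sg x ≠ 0 := by
          have := sq_pos_of_ne_zero hx0
          unfold sg
          nlinarith [sq_nonneg (x 1)]
        have h2 := hd x hx
        have hw := wt_nonneg γ x
        have h3 : pd 2 F x ^ 2 ≤ gr2 F x :=
          Finset.single_le_sum (f := fun i => pd i F x ^ 2) (fun i _ => sq_nonneg _)
            (Finset.mem_univ 2)
        have h4 : -(wt γ x * (F x * (LL F x - pd 2 G x)))
            ≤ 10 * K ^ 3 * (Cy c r h).indicator (fun x => wt γ x) x := by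
          by_cases hc : x ∈ Cy c r h
          · rw [indicator_of_mem hc] at h2 ⊢
            have h6 := (abs_le.1 h2).1
            have h7 := mul_le_mul_of_nonneg_left h6 hw
            linarith
          · rw [indicator_of_notMem hc] at h2 ⊢
            have h6 : F x * (LL F x - pd 2 G x) = 0 := abs_nonpos_iff.1 h2
            rw [h6]
            simp
        have h5 : pd 2 (fun y => F y * G y) x = F x * pd 2 G x + pd 2 F x * G x := by
          rw [pd_mulf hF hG]
        have h6 : pd 2 F x * G x ≤ 1 / 2 * gr2 F x + 1 / 2 * G x ^ 2 := by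
          nlinarith [sq_nonneg (pd 2 F x - G x)]
        have h7 := mul_le_mul_of_nonneg_left h6 hw
        show -(wt γ x * (F x * LL F x)) ≤ _
        rw [h5]
        linarith
    have I2 : Integrable (fun x : V => 1 / 2 * (wt γ x * gr2 F x)) := i2.const_mul _
    have I3 : Integrable (fun x : V => 1 / 2 * (wt γ x * G x ^ 2)) := i3.const_mul _
    have I1 : Integrable (fun x : V => 10 * K ^ 3 * (Cy c r h).indicator (fun x => wt γ x) x) :=
      i1.const_mul _
    have I23 : Integrable (fun x : V => 1 / 2 * (wt γ x * gr2 F x) + 1 / 2 * (wt γ x * G x ^ 2)) :=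
      I2.add I3
    have I123 : Integrable (fun x : V => 1 / 2 * (wt γ x * gr2 F x) + 1 / 2 * (wt γ x * G x ^ 2)
        + 10 * K ^ 3 * (Cy c r h).indicator (fun x => wt γ x) x) := I23.add I1
    rw [integral_sub I123 i4,
      wt_ibp hγ (hF.mul hG) hFc.mul_right, sub_zero,
      integral_add I23 I1,
      integral_add I2 I3, integral_const_mul, integral_const_mul,
      integral_const_mul, integral_indicator (isClosed_Cy c r h).measurableSet] at h1
    exact h1
  · rw [integral_undef hi]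
    have : 0 ≤ 10 * K ^ 3 * ∫ x in Cy c r h, wt γ x := by positivity
    linarith

theorem uw (hAlg : StmAlg) (_hAxF : StmAxF) (hDiv : StmDiv) (hEll : StmEllW) (hSob : StmSobW) :
    StmUW := by
  intro γ hγ hγ1
  obtain ⟨C₀, hC₀, hdiv⟩ := hDiv
  obtain ⟨CS, hCS, hsob⟩ := hSob γ hγ hγ1
  obtain ⟨q, hq⟩ : ∃ q : ℝ, q = γ * (1 - γ) := ⟨_, rfl⟩
  have hq0 : 0 < q := by rw [hq]; exact mul_pos hγ (by linarith)
  have hq1 : q ≤ 1 / 4 := by rw [hq]; nlinarith [sq_nonneg (γ - 1 / 2)]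
  refine ⟨2 * (1 + 1 / (4 * q)), by positivity, ?_⟩
  intro K c r h r1 h1 hK hr1 hr1r hr hh1 hh1h hh
  have hr0 : 0 < r := hr1.trans hr1r
  have hh0 : 0 < h := hh1.trans hh1h
  obtain ⟨V₀, hV⟩ : ∃ V₀ : ℝ, V₀ = ∫ x in Cy c r h, wt γ x := ⟨_, rfl⟩
  have hV0 : 0 ≤ V₀ := by rw [hV]; exact integral_nonneg fun x => wt_nonneg γ x
  obtain ⟨Ca, hCa⟩ : ∃ Ca : ℝ, Ca = (1 + 1 / (4 * q)) * (200 * K ^ 4 * V₀) := ⟨_, rfl⟩
  have hCa0 : 0 ≤ Ca := by rw [hCa]; positivity
  obtain ⟨Cb, hCb⟩ : ∃ Cb : ℝ, Cb = (1 / 2 + 10 * K ^ 3 * V₀) / (2 * q) := ⟨_, rfl⟩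
  have hCb0 : 0 ≤ Cb := by rw [hCb]; positivity
  obtain ⟨Cc, hCc⟩ : ∃ Cc : ℝ, Cc = CS * (2 * (1 + 1 / (4 * q)) + Ca) := ⟨_, rfl⟩
  have hCc0 : 0 ≤ Cc := by rw [hCc]; positivity
  refine ⟨Ca + Cb + Cc, by positivity, ?_⟩
  intro v φ hv hax hdf hφ hout
  obtain ⟨⟨sU, sW, sJ, sO⟩, ⟨aU, aW, aJ, aO⟩, -⟩ := hAlg v hv hax
  have hF : ContDiff ℝ ∞ (fun x => φ x * UU v x) := hφ.sm.mul sU
  have hFc : HasCompactSupport (fun x => φ x * UU v x) := hφ.cs.mul_right
  have hFa : AxF (fun x => φ x * UU v x) := by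
    intro θ x
    simp only
    rw [hφ.ax θ x, aU θ x]
  have hG : ContDiff ℝ ∞ (fun x => φ x * OO v x) := hφ.sm.mul sO
  have hGc : HasCompactSupport (fun x => φ x * OO v x) := hφ.cs.mul_right
  have hLL : ∀ x ∈ Co c r h, sg x ≠ 0 → LL (UU v) x = pd 2 (OO v) x := fun x hx hs =>
    (hdiv (Co c r h) v (isOpen_Co' c r h) hv hax hdf x hx hs).1
  obtain ⟨-, E1, E2⟩ := hEll γ hγ (by linarith) _ hF hFc hFa
  have A1 := est_a (γ := γ) (c := c) (h := h) (K := K) hγ hr0.le hG hGc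
    (F := fun x => φ x * UU v x)
    (fun x hx => (LL_cut hK hr1 hh1 hφ sU sO hout hLL hx).1)
  have A2 := est_b (γ := γ) (c := c) (h := h) (K := K) hγ hK hr0.le hF hFc hG hGc
    (fun x hx => (LL_cut hK hr1 hh1 hφ sU sO hout hLL hx).2)
  rw [← hV] at A1 A2
  have nG : 0 ≤ GW γ (fun x => φ x * OO v x) :=
    integral_nonneg fun x => mul_nonneg (wt_nonneg γ x) (gr2_nonneg _ x)
  have nF : 0 ≤ GW γ (fun x => φ x * UU v x) :=
    integral_nonneg fun x => mul_nonneg (wt_nonneg γ x) (gr2_nonneg _ x)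
  have nP : 0 ≤ PW γ (fun x => φ x * UU v x) :=
    integral_nonneg fun x => mul_nonneg (wt_nonneg γ x) (div_nonneg (sq_nonneg _) (sg_nonneg x))
  have nH : 0 ≤ ∫ x, wt γ x * hs2 (fun y => φ y * UU v y) x :=
    integral_nonneg fun x => mul_nonneg (wt_nonneg γ x) (hs2_nonneg _ x)
  have nR : 0 ≤ ∫ x, wt γ x * (gr2 (fun y => φ y * UU v y) x / sg x) :=
    integral_nonneg fun x => mul_nonneg (wt_nonneg γ x) (div_nonneg (gr2_nonneg _ x) (sg_nonneg x))
  have first : (∫ x, wt γ x * hs2 (fun y => φ y * UU v y) x)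
      + (∫ x, wt γ x * (gr2 (fun y => φ y * UU v y) x / sg x))
      ≤ 2 * (1 + 1 / (4 * q)) * GW γ (fun x => φ x * OO v x) + Ca := by
    obtain ⟨HH, hHH⟩ : ∃ HH : ℝ, HH = ∫ x, wt γ x * hs2 (fun y => φ y * UU v y) x := ⟨_, rfl⟩
    obtain ⟨RG, hRG⟩ : ∃ RG : ℝ, RG = ∫ x, wt γ x * (gr2 (fun y => φ y * UU v y) x / sg x) :=
      ⟨_, rfl⟩
    have hq' : 4 * γ * (1 - γ) = 4 * q := by rw [hq]; ring
    rw [hq', ← hHH, ← hRG] at E1
    rw [← hHH] at nH
    rw [← hRG] at nR
    rw [← hHH, ← hRG]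
    obtain ⟨X, hX⟩ : ∃ X : ℝ, X = 2 * GW γ (fun x => φ x * OO v x) + 200 * K ^ 4 * V₀ := ⟨_, rfl⟩
    have hE : HH + 4 * q * RG ≤ X := by rw [hX]; exact E1.trans A1
    have h2 : HH ≤ X := by nlinarith
    have h3 : RG ≤ X / (4 * q) := by
      rw [le_div_iff₀ (by positivity)]
      nlinarith
    have h4 : 2 * (1 + 1 / (4 * q)) * GW γ (fun x => φ x * OO v x) + Ca
        = X + X / (4 * q) := by
      rw [hCa, hX]
      field_simp
    rw [h4]
    linarith
  have hsum : Ca ≤ Ca + Cb + Cc := by linarith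
  refine ⟨by linarith, ?_, ?_⟩
  · have e1 : ∫ x, wt γ x * (φ x * OO v x) ^ 2 = ∫ x, wt γ x * (φ x ^ 2 * OO v x ^ 2) := by
      refine integral_congr_ae (Eventually.of_forall fun x => ?_)
      simp only
      ring
    rw [e1] at A2
    obtain ⟨I, hI⟩ : ∃ I : ℝ, I = ∫ x, wt γ x * (φ x ^ 2 * OO v x ^ 2) := ⟨_, rfl⟩
    have hI0 : 0 ≤ I := by
      rw [hI]
      exact integral_nonneg fun x => mul_nonneg (wt_nonneg γ x) (by positivity)
    rw [← hI] at A2 ⊢
    have hq' : 2 * γ * (1 - γ) = 2 * q := by rw [hq]; ring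
    rw [hq'] at E2
    have h2 : 2 * q * (GW γ (fun x => φ x * UU v x) + PW γ (fun x => φ x * UU v x))
        ≤ 1 / 2 * I + 10 * K ^ 3 * V₀ := by nlinarith
    have h3 : GW γ (fun x => φ x * UU v x) + PW γ (fun x => φ x * UU v x)
        ≤ (1 / 2 * I + 10 * K ^ 3 * V₀) / (2 * q) := by
      rw [le_div_iff₀ (by positivity)]
      linarith
    have h4 : (1 / 2 * I + 10 * K ^ 3 * V₀) / (2 * q) ≤ Cb * (1 + I) := by
      rw [hCb, div_mul_eq_mul_div (1 / 2 + 10 * K ^ 3 * V₀)]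
      apply div_le_div_of_nonneg_right _ (by positivity)
      have : 0 ≤ 10 * K ^ 3 * V₀ * I := by positivity
      nlinarith
    have h5 : Cb * (1 + I) ≤ (Ca + Cb + Cc) * (1 + I) :=
      mul_le_mul_of_nonneg_right (by linarith) (by linarith)
    linarith
  · intro x
    have h2 := hsob (fun x => φ x * UU v x) ![0, 0, c] hF rfl rfl (by
      intro y hy
      have hy' : φ y ≠ 0 := fun h0 => hy (by rw [h0, zero_mul])
      exact (norm_Co' hr0.le (hφ.supp (subset_tsupport φ hy'))).trans (max_le hr hh)) x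
    have h3 : ∫ x, wt γ x * hs2 (fun y => φ y * UU v y) x
        ≤ 2 * (1 + 1 / (4 * q)) * GW γ (fun x => φ x * OO v x) + Ca := by linarith
    have h4 := h2.trans (mul_le_mul_of_nonneg_left h3 hCS.le)
    have h5 : CS * (2 * (1 + 1 / (4 * q)) * GW γ (fun x => φ x * OO v x) + Ca)
        ≤ Cc * (1 + GW γ (fun x => φ x * OO v x)) := by
      rw [hCc]
      have : 0 ≤ CS * Ca * GW γ (fun x => φ x * OO v x) := by positivity
      have h6 : 0 ≤ CS * (2 * (1 + 1 / (4 * q))) := by positivity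
      nlinarith
    have h7 : Cc * (1 + GW γ (fun x => φ x * OO v x))
        ≤ (Ca + Cb + Cc) * (1 + GW γ (fun x => φ x * OO v x)) :=
      mul_le_mul_of_nonneg_right (by linarith) (by linarith)
    linarith

end Pool.Agent.Q177.AXI
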