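import Pool.Agent.Q67.AXI.Defs2
import Pool.Agent.Q285.AXI.Yi
import Pool.Agent.Q177.AXI.Int
import Pool.Agent.Q177.AXI.Gr

/-!
# Project AXW (helper67), job AXW-9 (WB): the bounds at all times
-/

set_option autoImplicit false

open MeasureTheory Set Metric Filter Topology
open scoped ContDiff

namespace Pool.Agent.Q177.AXI

open H459R3.NS Pool.Agent.W268.NS Pool.Agent.Q67.VD
open Pool.Agent.Q85.CC Pool.Agent.Q85.CL Pool.Agent.TH305.AX Pool.Agent.Q67.AXI
open Pool.Agent.Q285.AXI (slice co_mono)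

/-- The integral over the inner cylinder. -/
lemma inner_int {γ c r1 h1 : ℝ} (hγ : 0 < γ) (hγ1 : γ < 1) (hr1 : 0 < r1) (hr1' : r1 ≤ 1)
    (hh1 : 0 < h1) {φ U O : V → ℝ} (hφ : ContDiff ℝ ∞ φ) (hφc : HasCompactSupport φ)
    (hU : ContDiff ℝ ∞ U) (hO : ContDiff ℝ ∞ O) (hone : ∀ x ∈ Cy c r1 h1, φ x = 1) :
    ∫ x in Cy c r1 h1, (U x ^ 2 + sg x * (gr2 U x + O x ^ 2)) ≤
      PW γ (fun x => φ x * U x) + GW γ (fun x => φ x * U x)
        + ∫ x, wt γ x * (φ x ^ 2 * O x ^ 2) := by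
  have hF : ContDiff ℝ ∞ (fun x => φ x * U x) := hφ.mul hU
  have hFc : HasCompactSupport (fun x => φ x * U x) := hφc.mul_right
  have i1 : Integrable (fun x : V => wt γ x * ((φ x * U x) ^ 2 / sg x)) :=
    wt_int_div hγ hγ1 (hF.continuous.pow 2) (by
      have hq : (fun x : V => (φ x * U x) ^ 2) = fun x => (φ x * U x) * (φ x * U x) := by
        funext x
        ring
      rw [hq]
      exact hFc.mul_left)
  have i2 : Integrable (fun x : V => wt γ x * gr2 (fun y => φ y * U y) x) :=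
    wt_int hγ (gr2_cont hF) (gr2_supp hFc)
  have i3 : Integrable (fun x : V => wt γ x * (φ x ^ 2 * O x ^ 2)) :=
    wt_int hγ ((hφ.continuous.pow 2).mul (hO.continuous.pow 2)) (by
      have hq : (fun x : V => φ x ^ 2 * O x ^ 2) = fun x => φ x * (φ x * O x ^ 2) := by
        funext x
        ring
      rw [hq]
      exact hφc.mul_right)
  have n1 : ∀ x : V, 0 ≤ wt γ x * ((φ x * U x) ^ 2 / sg x) := fun x =>
    mul_nonneg (wt_nonneg γ x) (div_nonneg (sq_nonneg _) (sg_nonneg x))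
  have n2 : ∀ x : V, 0 ≤ wt γ x * gr2 (fun y => φ y * U y) x := fun x =>
    mul_nonneg (wt_nonneg γ x) (gr2_nonneg _ x)
  have n3 : ∀ x : V, 0 ≤ wt γ x * (φ x ^ 2 * O x ^ 2) := fun x =>
    mul_nonneg (wt_nonneg γ x) (by positivity)
  have hsum : PW γ (fun x => φ x * U x) + GW γ (fun x => φ x * U x)
      + ∫ x, wt γ x * (φ x ^ 2 * O x ^ 2) = ∫ x, (wt γ x * ((φ x * U x) ^ 2 / sg x)
        + wt γ x * gr2 (fun y => φ y * U y) x + wt γ x * (φ x ^ 2 * O x ^ 2)) := by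
    unfold PW GW
    exact (congrArg (· + _) (integral_add i1 i2).symm).trans (integral_add (i1.add i2) i3).symm
  rw [hsum]
  refine le_trans ?_ (setIntegral_le_integral (s := Cy c r1 h1) ((i1.add i2).add i3)
    (Eventually.of_forall fun x => add_nonneg (add_nonneg (n1 x) (n2 x)) (n3 x)))
  apply integral_mono_of_nonneg
  · refine Eventually.of_forall fun x => ?_
    have a1 := gr2_nonneg U x
    have a2 := sg_nonneg x
    simp only [Pi.zero_apply]
    positivity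
  · exact ((i1.add i2).add i3).integrableOn
  · rw [EventuallyLE, ae_restrict_iff' (isClosed_Cy c r1 h1).measurableSet]
    filter_upwards [ae_crd 0] with x hx0 hx
    have hsg : 0 < sg x := by
      have := sq_pos_of_ne_zero hx0
      unfold sg
      nlinarith [sq_nonneg (x 1)]
    have hsg1 : sg x ≤ 1 := hx.1.trans (by nlinarith)
    have hφ1 := hone x hx
    have hg : gr2 (fun y => φ y * U y) x = gr2 U x := by
      unfold gr2
      refine Finset.sum_congr rfl fun i _ => ?_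
      rw [pd_eq_Cy hr1 hh1 hF hU (fun y hy => by
        rw [hone y ⟨hy.1.le, hy.2.le⟩, one_mul]) hx i]
    have hw : sg x ≤ wt γ x := by
      unfold wt
      calc sg x = sg x ^ (1 : ℝ) := (Real.rpow_one _).symm
        _ ≤ sg x ^ γ := Real.rpow_le_rpow_of_exponent_ge hsg hsg1 hγ1.le
    rw [hg, hφ1, one_mul, one_pow, one_mul]
    have b1 : U x ^ 2 ≤ wt γ x * (U x ^ 2 / sg x) := by
      rw [mul_div_assoc', le_div_iff₀ hsg]
      nlinarith [sq_nonneg (U x)]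
    have b2 : sg x * gr2 U x ≤ wt γ x * gr2 U x := mul_le_mul_of_nonneg_right hw (gr2_nonneg U x)
    have b3 : sg x * O x ^ 2 ≤ wt γ x * O x ^ 2 := mul_le_mul_of_nonneg_right hw (sq_nonneg _)
    linarith

theorem wb (gm dl : ℝ → ℝ) (hAlg : StmAlg) (hJnt : StmJnt) (hU : StmUW) (hDt : StmDtW)
    (hSm : StmSm) (hYd : StmYdW gm dl) : StmWbW dl := by
  intro μ hμ hμ2 T E c R H K r h r1 h1 T₁ u p B φ hA hK hr1 hr1r hrR hr hh1 hh1h hhH hh hT₁ hT₁T
    hcut hBc hBi hout hcirc hrad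
  obtain ⟨hg0, hg1, hd0, hd1, hyd⟩ := hYd μ hμ hμ2
  obtain ⟨C₀, hC₀, hyd⟩ := hyd T E c R H K r h r1 h1 T₁ u p B φ hA hK hr1 hr1r hrR hr hh1 hh1h hhH
    hh hT₁ hT₁T hcut hout hcirc hrad
  obtain ⟨γ, hγ⟩ : ∃ γ : ℝ, γ = gm μ := ⟨_, rfl⟩
  rw [← hγ] at hg0 hg1 hyd
  have hr0 : 0 < r := hr1.trans hr1r
  have hsub : Co c r h ⊆ Co c R H := co_mono hr0 hrR hhH
  have hsub1 : Cy c r1 h1 ⊆ Co c r h := fun x hx =>
    ⟨hx.1.trans_lt (by nlinarith), hx.2.trans_lt hh1h⟩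
  have hI : ∀ t ∈ Ico T₁ T, t ∈ Ioo 0 T := fun t ht => ⟨hT₁.trans_le ht.1, ht.2⟩
  obtain ⟨j1, j2, j3, j4⟩ := hJnt T u hA.smooth_u
  obtain ⟨G, hG⟩ : ∃ G : ℝ → ℝ, G = fun t => GW γ (fun x => φ x * OO (u t) x) := ⟨_, rfl⟩
  have hGc : ContinuousOn G (Ico T₁ T) := by
    rw [hG]
    exact (hDt γ T (fun t => OO (u t)) φ hg0 j4 hcut.sm hcut.cs).1.mono hI
  have hG0 : ∀ t, 0 ≤ G t := by
    intro t
    rw [hG]
    exact integral_nonneg fun x => mul_nonneg (wt_nonneg γ x) (gr2_nonneg _ x)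
  obtain ⟨Y, hY⟩ : ∃ Y : ℝ → ℝ, Y = fun s => (∫ x, wt γ x * (φ x ^ 2 * JJ (u s) x ^ 2))
      + ∫ x, wt γ x * (φ x ^ 2 * OO (u s) x ^ 2) := ⟨_, rfl⟩
  have nJ : ∀ t, 0 ≤ ∫ x, wt γ x * (φ x ^ 2 * JJ (u t) x ^ 2) := fun t =>
    integral_nonneg fun x => mul_nonneg (wt_nonneg γ x) (by positivity)
  have nO : ∀ t, 0 ≤ ∫ x, wt γ x * (φ x ^ 2 * OO (u t) x ^ 2) := fun t =>
    integral_nonneg fun x => mul_nonneg (wt_nonneg γ x) (by positivity)
  have hY0 : ∀ t, 0 ≤ Y t := by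
    intro t
    rw [hY]
    exact add_nonneg (nJ t) (nO t)
  choose! D hD1 hD2 using hyd
  obtain ⟨M, hM0, hM⟩ := gron (Y := Y) (D := D) (b := fun t => |B t|) (G := G) (C := C₀) hT₁T hC₀
    hBc.abs hBi.abs (fun t _ => abs_nonneg _) hGc (fun t _ => hG0 t) (fun t _ => hY0 t)
    (fun t ht => by rw [hY]; exact hD1 t ht)
    (fun t ht => by
      have := hD2 t ht
      rw [hG, hY]
      exact this)
  -- the bounds of `UU`
  obtain ⟨C₁, hC₁, hU'⟩ := hU γ hg0 hg1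
  obtain ⟨C₂, hC₂, hU'⟩ := hU' K c r h r1 h1 hK hr1 hr1r hr hh1 hh1h hh
  have hUt : ∀ t ∈ Ico T₁ T, _ := fun t ht => hU' (u t) φ (slice hA.smooth_u (hI t ht))
    (hA.axi t (hI t ht)) (fun x hx => hA.divfree t (hI t ht) x (hsub hx)) hcut (hout t ht)
  -- the window
  obtain ⟨g, hg⟩ : ∃ g : ℝ → ℝ, g = fun t => √(C₂ * (1 + G t)) := ⟨_, rfl⟩
  have hgc : ContinuousOn g (Ico T₁ T) := by
    rw [hg]
    exact (continuousOn_const.mul (continuousOn_const.add hGc)).sqrt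
  have hg2 : ∀ t, g t ^ 2 = C₂ * (1 + G t) := by
    intro t
    rw [hg]
    exact Real.sq_sqrt (mul_nonneg hC₂ (by linarith [hG0 t]))
  obtain ⟨τ, hτ, hwin⟩ := window (T₁ := T₁) (T := T) (N := C₂ * ((T - T₁) + M)) (g := g)
    (by
      apply mul_nonneg hC₂
      linarith) hgc (by
      intro t ht
      simp only [hg2]
      have hGI : IntervalIntegrable G volume T₁ t := by
        rw [intervalIntegrable_iff_integrableOn_Icc_of_le ht.1]
        exact (hGc.mono fun s hs => ⟨hs.1, hs.2.trans_lt ht.2⟩).integrableOn_compact isCompact_Icc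
      rw [intervalIntegral.integral_const_mul]
      apply mul_le_mul_of_nonneg_left _ hC₂
      rw [intervalIntegral.integral_add (by simp) hGI, intervalIntegral.integral_const,
        smul_eq_mul, mul_one]
      have := (hM t ht).2
      linarith [ht.2])
  -- smoothing
  obtain ⟨C₃, hC₃, hsm⟩ := hSm T E c R H r1 h1 T₁ K (dl μ) u p hA hr1 (hr1r.trans hrR) hh1
    (hh1h.trans hhH) hT₁ hT₁T (by
      intro t ht x hx
      refine ⟨hcirc t ht x (hsub1 hx), fun hbd => ?_⟩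
      have hxo : x ∈ Out c r h r1 h1 := by
        refine ⟨⟨(hsub1 hx).1.le, (hsub1 hx).2.le⟩, ?_⟩
        rcases hbd with hbd | hbd
        · exact Or.inl hbd.ge
        · exact Or.inr hbd.ge
      exact (hout t ht x hxo).2.2.1)
  refine ⟨C₃ / τ + (C₂ * (1 + M) + C₂ * (1 + M) + M), ?_, fun t ht => ⟨fun x hx => ?_, ?_⟩⟩
  · have := hτ.1
    positivity
  · have h2 := hsm τ hτ t ht g (hgc.mono fun s hs => ⟨hs.1, hs.2.trans_lt ht.2⟩)
      (fun s hs y hy => by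
        have hs' : s ∈ Ico T₁ T := ⟨hs.1, hs.2.trans_lt ht.2⟩
        have h3 := (hUt s hs').2.2 y
        rw [hcut.one y hy, one_mul] at h3
        apply Real.abs_le_sqrt at h3
        rw [hg, hG]
        exact h3)
      (hwin t ht) x hx
    have h4 : 0 ≤ C₂ * (1 + M) + C₂ * (1 + M) + M := by positivity
    linarith
  · obtain ⟨s1, s2, s3, s4⟩ := (hAlg (u t) (slice hA.smooth_u (hI t ht)) (hA.axi t (hI t ht))).1
    have h5 := inner_int (γ := γ) (c := c) hg0 (by linarith) hr1 (by linarith) hh1 hcut.sm hcut.cs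
      s1 s4 hcut.one
    have h6 := (hUt t ht).2.1
    have h7 : ∫ x, wt γ x * (φ x ^ 2 * OO (u t) x ^ 2) ≤ M := by
      have := (hM t ht).1
      rw [hY] at this
      simp only at this
      linarith [nJ t]
    have h8 : C₂ * (1 + ∫ x, wt γ x * (φ x ^ 2 * OO (u t) x ^ 2)) ≤ C₂ * (1 + M) :=
      mul_le_mul_of_nonneg_left (by linarith) hC₂
    have h9 : 0 ≤ C₂ * (1 + M) := by positivity
    have h10 : 0 ≤ C₃ / τ := div_nonneg hC₃ hτ.1.le
    linarith

end Pool.Agent.Q177.AXI
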